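import Pool.Agent.T2h85.KC3

/-!
# The scaling limit of the iterated differences of the lattice Green function
-/

namespace Pool.Agent.T2h85.KC

open MeasureTheory Set Filter Topology
open Pool.Agent.T2h85.KA Pool.Agent.Z72.KB
open Pool.Agent.T2h94 (dw sgw gk pd Gr)

noncomputable section

lemma G_meas (p m : ℕ) (X : ℝ) : StronglyMeasurable fun T : ℝ => G p m T X := by
  unfold G
  refine StronglyMeasurable.const_mul ?_ _
  refine StronglyMeasurable.integral_prod_right (f := fun T κ : ℝ => H p m T X κ) ?_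
  apply Continuous.stronglyMeasurable
  unfold H Function.uncurry
  fun_prop

lemma HK_meas {d : ℕ} (n : Fin d → ℕ) (X : Fin d → ℝ) :
    StronglyMeasurable fun T : ℝ => HK n T X := by
  unfold HK
  exact Finset.stronglyMeasurable_fun_prod _ fun i _ => G_meas _ _ _

lemma et3_integrable : IntegrableOn (fun t : ℝ => et t ^ 3) (Ioi 0) := et_pow_integrable le_rfl

lemma HK_integrable {d : ℕ} (hd : 3 ≤ d) (n : Fin d → ℕ) {X : Fin d → ℝ} (hX : X ≠ 0) :
    IntegrableOn (fun T : ℝ => HK n T X) (Ioi 0) := by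
  obtain ⟨i0, hi0⟩ : ∃ i, X i ≠ 0 := by
    by_contra h
    push Not at h
    exact hX (funext h)
  have hc : 0 < |X i0| := abs_pos.2 hi0
  refine Integrable.mono' (et3_integrable.const_mul (HC n |X i0|))
    (HK_meas n X).aestronglyMeasurable ?_
  exact (ae_restrict_iff' measurableSet_Ioi).2 (Eventually.of_forall fun T hT =>
    HK_bound hd n hT hc i0 le_rfl)

/-- the derivatives of the Green function -/
def IK {d : ℕ} (n : Fin d → ℕ) (X : Fin d → ℝ) : ℂ := ∫ T in Ioi (0:ℝ), HK n T X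

lemma proj_norm {d : ℕ} (l : Fin d) :
    ‖(ContinuousLinearMap.proj (R := ℝ) (φ := fun _ : Fin d => ℝ) l)‖ ≤ 1 := by
  refine ContinuousLinearMap.opNorm_le_bound _ zero_le_one fun v => ?_
  rw [one_mul]
  exact norm_le_pi_norm v l

lemma HK'_bound {d : ℕ} (hd : 3 ≤ d) (n : Fin d → ℕ) {T : ℝ} (hT : 0 < T) {X : Fin d → ℝ}
    {c : ℝ} (hc : 0 < c) (i0 : Fin d) (hX : c ≤ |X i0|) :
    ‖HK' n T X‖ ≤ (∑ l, HC (n + Pi.single l 1) c) * et T ^ 3 := by
  unfold HK'
  rw [Finset.sum_mul]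
  refine norm_sum_le_of_le _ fun l _ => ?_
  rw [ContinuousLinearMap.norm_smulRight_apply]
  have h1 := HK_bound hd (n + Pi.single l 1) hT hc i0 hX
  have h2 := proj_norm l
  calc _ ≤ 1 * ‖HK (n + Pi.single l 1) T X‖ := by gcongr
    _ ≤ _ := by rw [one_mul]; exact h1

lemma HK'_meas {d : ℕ} (n : Fin d → ℕ) (X : Fin d → ℝ) :
    StronglyMeasurable fun T : ℝ => HK' n T X := by
  unfold HK'
  refine Finset.stronglyMeasurable_fun_sum _ fun l _ => ?_
  have h1 := HK_meas (n + Pi.single l 1) X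
  have h2 : Continuous fun u : ℂ =>
      (ContinuousLinearMap.proj (R := ℝ) (φ := fun _ : Fin d => ℝ) l).smulRight u :=
    (ContinuousLinearMap.smulRightL ℝ (Fin d → ℝ) ℂ
      (ContinuousLinearMap.proj (R := ℝ) (φ := fun _ : Fin d => ℝ) l)).continuous
  exact h2.comp_stronglyMeasurable h1

lemma IK_hasFDerivAt {d : ℕ} (hd : 3 ≤ d) (n : Fin d → ℕ) {X : Fin d → ℝ} (hX : X ≠ 0) :
    HasFDerivAt (IK n) (∫ T in Ioi (0:ℝ), HK' n T X) X := by
  obtain ⟨i0, hi0⟩ : ∃ i, X i ≠ 0 := by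
    by_contra h
    push Not at h
    exact hX (funext h)
  have hXp : 0 < |X i0| := abs_pos.2 hi0
  set c : ℝ := |X i0| / 2 with hc
  have hc0 : 0 < c := by positivity
  set s : Set (Fin d → ℝ) := {Y | c < |Y i0|} with hs
  have hso : IsOpen s := isOpen_lt continuous_const (by fun_prop)
  have hXs : X ∈ s := by
    show c < |X i0|
    linarith
  have hbd : ∀ T ∈ Ioi (0:ℝ), ∀ Y ∈ s,
      ‖HK' n T Y‖ ≤ (∑ l, HC (n + Pi.single l 1) c) * et T ^ 3 := fun T hT Y hY =>
    HK'_bound hd n hT hc0 i0 (le_of_lt hY)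
  refine hasFDerivAt_integral_of_dominated_of_fderiv_le (F := fun Y T => HK n T Y)
    (F' := fun Y T => HK' n T Y)
    (bound := fun T => (∑ l, HC (n + Pi.single l 1) c) * et T ^ 3) (s := s)
    (hso.mem_nhds hXs) ?_ (HK_integrable hd n hX) ?_ ?_ (et3_integrable.const_mul _) ?_
  · exact Eventually.of_forall fun Y => (HK_meas n Y).aestronglyMeasurable
  · exact (HK'_meas n X).aestronglyMeasurable
  · exact (ae_restrict_iff' measurableSet_Ioi).2 (Eventually.of_forall fun T hT Y hY =>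
      hbd T hT Y hY)
  · exact (ae_restrict_iff' measurableSet_Ioi).2 (Eventually.of_forall fun T hT Y _ =>
      HK_hasFDerivAt n hT Y)

lemma HK'_integrable {d : ℕ} (hd : 3 ≤ d) (n : Fin d → ℕ) {X : Fin d → ℝ} (hX : X ≠ 0) :
    IntegrableOn (fun T : ℝ => HK' n T X) (Ioi 0) := by
  obtain ⟨i0, hi0⟩ : ∃ i, X i ≠ 0 := by
    by_contra h
    push Not at h
    exact hX (funext h)
  have hXp : 0 < |X i0| := abs_pos.2 hi0
  refine Integrable.mono' (et3_integrable.const_mul (∑ l, HC (n + Pi.single l 1) |X i0|))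
    (HK'_meas n X).aestronglyMeasurable ?_
  exact (ae_restrict_iff' measurableSet_Ioi).2 (Eventually.of_forall fun T hT =>
    HK'_bound hd n hT hXp i0 le_rfl)

lemma IK'_apply {d : ℕ} (hd : 3 ≤ d) (n : Fin d → ℕ) {X : Fin d → ℝ} (hX : X ≠ 0) (l : Fin d) :
    (∫ T in Ioi (0:ℝ), HK' n T X) (Pi.single l 1) = IK (n + Pi.single l 1) X := by
  rw [ContinuousLinearMap.integral_apply (HK'_integrable hd n hX)]
  unfold IK
  congr 1
  funext T
  unfold HK'
  simp only [_root_.sum_apply, ContinuousLinearMap.smulRight_apply,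
    ContinuousLinearMap.proj_apply]
  rw [Finset.sum_eq_single l]
  · simp
  · intro j _ hj
    rw [Pi.single_eq_of_ne hj, zero_smul]
  · intro h
    exact absurd (Finset.mem_univ l) h

/-- the multiplicities of a list of directions -/
def cnt {d : ℕ} : List (Fin d) → Fin d → ℕ
  | [] => 0
  | l :: m => cnt m + Pi.single l 1

theorem pd_eq {d : ℕ} (hd : 3 ≤ d) (m : List (Fin d)) :
    ∀ {X : Fin d → ℝ}, X ≠ 0 → pd (Gr d) m X = (IK (cnt m) X).re := by
  induction m with
  | nil =>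
    intro X hX
    show Gr d X = _
    have h1 : IK (cnt ([] : List (Fin d))) X = ((Gr d X : ℝ) : ℂ) := by
      rw [← cont_integral0 hd hX, ← integral_complex_ofReal]
      unfold IK
      refine setIntegral_congr_fun measurableSet_Ioi fun T hT => ?_
      exact prod_G0 X T hT
    rw [h1, Complex.ofReal_re]
  | cons l m ih =>
    intro X hX
    show fderiv ℝ (pd (Gr d) m) X (Pi.single l 1) = _
    have h1 := IK_hasFDerivAt hd (cnt m) hX
    have h2 : HasFDerivAt (fun Y => (IK (cnt m) Y).re)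
        (Complex.reCLM.comp (∫ T in Ioi (0:ℝ), HK' (cnt m) T X)) X :=
      Complex.reCLM.hasFDerivAt.comp X h1
    have h3 : pd (Gr d) m =ᶠ[𝓝 X] fun Y => (IK (cnt m) Y).re := by
      filter_upwards [isOpen_ne.mem_nhds hX] with Y hY
      exact ih hY
    rw [h3.fderiv_eq, h2.fderiv, ContinuousLinearMap.comp_apply, IK'_apply hd _ hX l]
    rfl

lemma cnt_eq {d : ℕ} (w : List (Fin d × Bool)) (i : Fin d) :
    cnt (w.map Prod.fst) i = ep w i + em w i := by
  induction w with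
  | nil => rfl
  | cons x w ih =>
    obtain ⟨l, b⟩ := x
    cases b
    · simp only [List.map_cons, cnt, ep, em, Pi.add_apply, ih, Pi.single_apply]
      ring
    · simp only [List.map_cons, cnt, ep, em, Pi.add_apply, ih, Pi.single_apply]
      ring

lemma sgw_eq {d : ℕ} (w : List (Fin d × Bool)) :
    ((sgw w : ℝ) : ℂ) = ∏ i, (-1 : ℂ) ^ em w i := by
  induction w with
  | nil => simp [sgw, em]
  | cons x w ih =>
    obtain ⟨l, b⟩ := x
    cases b
    · simp only [sgw, em, pow_add, Finset.prod_mul_distrib]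
      push_cast
      rw [ih]
      simp [pow_ite]
    · simp only [sgw, em]
      exact ih

lemma prod_G_eq {d : ℕ} (w : List (Fin d × Bool)) (T : ℝ) (X : Fin d → ℝ) :
    ∏ i, G (ep w i) (em w i) T (X i) = ((sgw w : ℝ) : ℂ) * HK (cnt (w.map Prod.fst)) T X := by
  rw [sgw_eq]
  unfold HK
  rw [← Finset.prod_mul_distrib]
  refine Finset.prod_congr rfl fun i _ => ?_
  rw [cnt_eq, G_neg]

/-- the scaled product -/
def PSw {d : ℕ} (w : List (Fin d × Bool)) (a : ℝ) (z : Fin d → ℤ) (T : ℝ) : ℂ :=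
  ∏ i, ((((a)⁻¹ ^ (ep w i + em w i + 1) : ℝ) : ℂ) * Q (ep w i) (em w i) (T / a ^ 2) (z i))

lemma PSw_eq {d : ℕ} (w : List (Fin d × Bool)) (a : ℝ) (z : Fin d → ℤ) (T : ℝ) :
    PSw w a z T = (((a)⁻¹ ^ (d + w.length) : ℝ) : ℂ) *
      ∏ i, Q (ep w i) (em w i) (T / a ^ 2) (z i) := by
  unfold PSw
  rw [Finset.prod_mul_distrib, ← Complex.ofReal_prod, Finset.prod_pow_eq_pow_sum, sum_exps]

/-- scaling of the infinite time kernel -/
theorem gw'_scaled {d : ℕ} (hd : 3 ≤ d) (w : List (Fin d × Bool)) (z : Fin d → ℤ) {a : ℝ}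
    (ha : 0 < a) :
    (((a ^ (d - 2 + w.length))⁻¹ : ℝ) : ℂ) * gw' w z = ∫ T in Ioi (0:ℝ), PSw w a z T := by
  rw [gw'_eq hd]
  have hb : 0 < (a ^ 2)⁻¹ := by positivity
  have h := integral_comp_mul_left_Ioi' (fun t : ℝ => ∏ i, Q (ep w i) (em w i) t (z i)) 0 hb
  rw [mul_zero] at h
  rw [← h, Complex.real_smul]
  simp only [PSw_eq]
  rw [integral_const_mul, ← mul_assoc, ← Complex.ofReal_mul]
  have e1 : (a ^ (d - 2 + w.length))⁻¹ * (a ^ 2)⁻¹ = a⁻¹ ^ (d + w.length) := by
    rw [inv_pow, ← mul_inv, ← pow_add]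
    congr 2
    omega
  rw [e1]
  congr 1
  refine setIntegral_congr_fun measurableSet_Ioi fun T _ => ?_
  have e2 : (a ^ 2)⁻¹ * T = T / a ^ 2 := by
    rw [div_eq_mul_inv, mul_comm]
  simp only [e2]

/-- the uniform bound of the scaled product -/
theorem PSw_bound {d : ℕ} (hd : 3 ≤ d) (w : List (Fin d × Bool)) {a : ℝ} (ha : 0 < a)
    (z : Fin d → ℤ) {T : ℝ} (hT : 0 < T) {c : ℝ} (hc : 0 < c) (i0 : Fin d)
    (hz : c ≤ |a * (z i0 : ℝ)|) :
    ‖PSw w a z T‖ ≤ (∏ i : Fin d, QC (ep w i + em w i)) *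
      ((((d + w.length).factorial : ℝ) / c ^ (d + w.length) +
        ((d + w.length - 3).factorial : ℝ) / c ^ (d + w.length - 3)) * et T ^ 3) := by
  set e := et (T / a ^ 2) with he
  have he0 : 0 < e := et_pos _
  set y := ys a T with hy
  have hye : y = e / a := rfl
  have hy0 : 0 < y := ys_pos ha T
  have hyT : T * y ^ 2 ≤ 1 := ys_sq_le ha T
  have h1 : ‖PSw w a z T‖ ≤
      ∏ i : Fin d, (QC (ep w i + em w i) * (y ^ (ep w i + em w i + 1) *
          Real.exp (-(|(z i : ℝ)| * e)))) := by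
    unfold PSw
    rw [norm_prod]
    refine Finset.prod_le_prod (fun i _ => norm_nonneg _) fun i _ => ?_
    rw [norm_mul, Complex.norm_real, Real.norm_of_nonneg (by positivity)]
    have h2 := Q_bound (ep w i) (em w i) (T / a ^ 2) (by positivity) (z i)
    rw [← he] at h2
    calc a⁻¹ ^ (ep w i + em w i + 1) * ‖Q (ep w i) (em w i) (T / a ^ 2) (z i)‖
        ≤ a⁻¹ ^ (ep w i + em w i + 1) * (QC (ep w i + em w i) *
          e ^ (ep w i + em w i + 1) * Real.exp (-(|(z i : ℝ)| * e))) := by gcongr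
      _ = _ := by
        rw [hye, div_eq_mul_inv, mul_pow]
        ring
  refine h1.trans ?_
  rw [Finset.prod_mul_distrib, Finset.prod_mul_distrib, Finset.prod_pow_eq_pow_sum, sum_exps,
    ← Real.exp_sum]
  have hQ : 0 ≤ ∏ i : Fin d, QC (ep w i + em w i) :=
    Finset.prod_nonneg fun i _ => QC_nonneg _
  refine mul_le_mul_of_nonneg_left ?_ hQ
  refine le_trans ?_ (dom_et _ (by omega) hc hy0 hT hyT)
  refine mul_le_mul_of_nonneg_left ?_ (by positivity)
  apply Real.exp_le_exp.2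
  rw [Finset.sum_neg_distrib]
  apply neg_le_neg
  have h3 : |(z i0 : ℝ)| * e ≤ ∑ i, |(z i : ℝ)| * e :=
    Finset.single_le_sum (f := fun i => |(z i : ℝ)| * e) (fun i _ => by positivity)
      (Finset.mem_univ i0)
  refine le_trans ?_ h3
  rw [hye]
  have h4 : |(z i0 : ℝ)| * e = |a * (z i0 : ℝ)| * (e / a) := by
    rw [abs_mul, abs_of_pos ha]
    field_simp
  rw [h4]
  gcongr

/-- the limit of the infinite time kernel -/
theorem gw'_limit {d : ℕ} (hd : 3 ≤ d) (w : List (Fin d × Bool)) {X : Fin d → ℝ} (hX : X ≠ 0)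
    {a : ℕ → ℝ} (ha : ∀ i, 0 < a i) (ha0 : Tendsto a atTop (𝓝 0))
    {z : ℕ → Fin d → ℤ} (hz : ∀ s, Tendsto (fun i => a i * (z i s : ℝ)) atTop (𝓝 (X s))) :
    Tendsto (fun i => (((a i ^ (d - 2 + w.length))⁻¹ : ℝ) : ℂ) * gw' w (z i)) atTop
      (𝓝 (((sgw w : ℝ) : ℂ) * IK (cnt (w.map Prod.fst)) X)) := by
  have h0 : ((sgw w : ℝ) : ℂ) * IK (cnt (w.map Prod.fst)) X = ∫ T in Ioi (0:ℝ),
      ∏ i, G (ep w i) (em w i) T (X i) := by
    simp only [prod_G_eq]
    rw [integral_const_mul]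
    rfl
  rw [h0]
  simp only [gw'_scaled hd w _ (ha _)]
  obtain ⟨i0, hi0⟩ : ∃ i, X i ≠ 0 := by
    by_contra h
    push Not at h
    exact hX (funext h)
  set c : ℝ := |X i0| / 2 with hc
  have hXp : 0 < |X i0| := abs_pos.2 hi0
  have hc0 : 0 < c := by positivity
  refine tendsto_integral_filter_of_dominated_convergence
    (fun T => (∏ i : Fin d, QC (ep w i + em w i)) *
      ((((d + w.length).factorial : ℝ) / c ^ (d + w.length) +
        ((d + w.length - 3).factorial : ℝ) / c ^ (d + w.length - 3)) * et T ^ 3)) ?_ ?_ ?_ ?_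
  · refine Eventually.of_forall fun i => ?_
    apply Continuous.aestronglyMeasurable
    unfold PSw
    refine continuous_finsetProd _ fun s _ => ?_
    refine Continuous.mul continuous_const ?_
    exact (Q_continuous_t _ _ _).comp (continuous_id.div_const _)
  · have h1 : Tendsto (fun i => |a i * (z i i0 : ℝ)|) atTop (𝓝 |X i0|) := (hz i0).abs
    have h2 : ∀ᶠ i in atTop, c < |a i * (z i i0 : ℝ)| :=
      h1.eventually (lt_mem_nhds (by linarith))
    filter_upwards [h2] with i hi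
    refine (ae_restrict_iff' measurableSet_Ioi).2 (Eventually.of_forall fun T hT => ?_)
    exact PSw_bound hd w (ha i) (z i) hT hc0 i0 hi.le
  · exact (et3_integrable.const_mul _).const_mul _
  · refine (ae_restrict_iff' measurableSet_Ioi).2 (Eventually.of_forall fun T hT => ?_)
    unfold PSw
    refine tendsto_finsetProd _ fun s _ => ?_
    exact Q_tendsto _ _ T (X s) hT ha ha0 (hz s)

/-- **The scaling limit of the iterated differences of the lattice Green function.** -/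
theorem kernel_limit_gen {d : ℕ} (hd : 3 ≤ d) (w : List (Fin d × Bool)) {X : Fin d → ℝ}
    (hX : X ≠ 0) {a : ℕ → ℝ} (ha : ∀ i, 0 < a i) (ha0 : Tendsto a atTop (𝓝 0))
    {K : ℕ → ℕ} (hK : Tendsto (fun i => (K i : ℝ) * a i ^ 2) atTop atTop)
    {z : ℕ → Fin d → ℤ} (hz : ∀ s, Tendsto (fun i => a i * (z i s : ℝ)) atTop (𝓝 (X s))) :
    Tendsto (fun i => (a i ^ (d - 2 + w.length))⁻¹ * dw (gk d (K i)) w (z i)) atTop
      (𝓝 (sgw w * pd (Gr d) (w.map Prod.fst) X)) := by
  have hd0 : (0:ℝ) < d := by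
    have : 0 < d := by omega
    exact_mod_cast this
  set M : ℕ := d - 2 + w.length with hM
  have hM1 : 1 ≤ M := by omega
  have hM0 : (0:ℝ) < M := by exact_mod_cast hM1
  have hinf' := gw'_limit hd w hX ha ha0 hz
  rw [← hM] at hinf'
  -- the remainder
  have hrem : Tendsto (fun i => (((a i ^ M)⁻¹ : ℝ) : ℂ) *
      (((dw (gk d (K i)) w (z i) : ℝ) : ℂ) - gw' w (z i))) atTop (𝓝 0) := by
    have hlim : Tendsto (fun i => RC w * (2 * (((K i : ℝ) * a i ^ 2) / (4 * d)) ^
        (-((M : ℝ) / 2)))) atTop (𝓝 (RC w * (2 * 0))) := by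
      refine Tendsto.const_mul _ (Tendsto.const_mul _ ?_)
      exact (tendsto_rpow_neg_atTop (by positivity)).comp
        (hK.atTop_div_const (by positivity))
    rw [mul_zero, mul_zero] at hlim
    refine squeeze_zero_norm' ?_ hlim
    have h1 : ∀ᶠ i in atTop, 4 * (d:ℝ) ≤ (K i : ℝ) * a i ^ 2 := hK.eventually_ge_atTop _
    have h2 : ∀ᶠ i in atTop, a i < 1 := ha0.eventually (gt_mem_nhds one_pos)
    filter_upwards [h1, h2] with i hi hi2
    have hai := ha i
    have hKi : 1 ≤ (K i : ℝ) / (4 * d) := by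
      rw [le_div_iff₀ (by positivity), one_mul]
      have h3 : a i ^ 2 ≤ 1 := pow_le_one₀ hai.le hi2.le
      have h4 : (K i : ℝ) * a i ^ 2 ≤ (K i : ℝ) * 1 := by gcongr
      linarith
    rw [norm_mul, Complex.norm_real, Real.norm_of_nonneg (by positivity)]
    have h4 := (gk_sub_gw' hd (K i) w (z i)).trans (tail_lew hd w hKi)
    rw [← hM] at h4
    calc (a i ^ M)⁻¹ * ‖((dw (gk d (K i)) w (z i) : ℝ) : ℂ) - gw' w (z i)‖
        ≤ (a i ^ M)⁻¹ * (RC w * (2 * ((K i : ℝ) / (4 * d)) ^ (-((M : ℝ) / 2)))) := by gcongr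
      _ = RC w * (2 * (((K i : ℝ) * a i ^ 2) / (4 * d)) ^ (-((M : ℝ) / 2))) := by
        have h5 : ((K i : ℝ) * a i ^ 2) / (4 * d) = ((K i : ℝ) / (4 * d)) * a i ^ 2 := by ring
        rw [h5, Real.mul_rpow (by positivity) (by positivity)]
        have h6 : (a i ^ 2) ^ (-((M : ℝ) / 2)) = (a i ^ M)⁻¹ := by
          rw [← Real.rpow_natCast (a i) 2, ← Real.rpow_mul hai.le, ← Real.rpow_natCast (a i) M,
            ← Real.rpow_neg hai.le]
          congr 1
          push_cast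
          ring
        rw [h6]
        ring
  have hsum := hinf'.add hrem
  rw [add_zero] at hsum
  have hre := (Complex.continuous_re.tendsto _).comp hsum
  rw [Complex.re_ofReal_mul, ← pd_eq hd _ hX] at hre
  refine hre.congr fun i => ?_
  simp only [Function.comp]
  rw [← mul_add]
  have h6 : gw' w (z i) + (((dw (gk d (K i)) w (z i) : ℝ) : ℂ) - gw' w (z i)) =
      ((dw (gk d (K i)) w (z i) : ℝ) : ℂ) := by ring
  rw [h6, ← Complex.ofReal_mul, Complex.ofReal_re]

end

end Pool.Agent.T2h85.KC
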