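import Pool.Agent.T2h85.RR.Fin

/-!
# Which laws can Frobenius angles have?

`K` is a number field and `θ_v` a real number for every prime `v` of `K`; nothing else is assumed on the
`θ_v`.  Let `L(Sym^m, s)` be the Euler product of the `m`-th symmetric power for the eigenvalues
`e^{± i θ_v}`.  For the families of the problem with `ST ⊂ SU(2)` all these functions are expected to have
meromorphic continuations.  The theorem says what follows from the continuation to
a (small) neighbourhood of the point `s = 1` alone, with any zeros and poles: the `θ_v` have a law (for the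
analytic density), and it is one of the following laws on `[0, π]`:

* a law with finite support in the rational multiples of `π`;
* the density `1 / π`;
* the density `(1 - cos (N t)) / π` or `(1 + cos (N t)) / π` for some `N ≥ 1` (the Sato-Tate law is the
  density `(1 - cos (2 t)) / π`);
* half of the density `1 / π` and half of the uniform law on the points `t` with `cos (N t) = 1`, or
  on those with `cos (N t) = -1` (for `N = 2` and `-1` this is the law of an elliptic curve over `K` with
  complex multiplication not defined over `K`).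
-/

set_option autoImplicit false

namespace Pool.Agent.Results.MP_4c4ce6_nt.AngleLaws

open NumberField IsDedekindDomain Filter Topology Pool.Agent.T2h85.Angles

/-- **The possible laws.**  Let `K` be a number field and `θ_v ∈ ℝ` for the primes `v` of `K`, and suppose
that every `L(Sym^m, s)`, `m ≥ 1`, has a meromorphic continuation to some neighbourhood of `s = 1`.  Then
the `θ_v` have an analytic law, and this is a law with finite support in the rational multiples of `π`, the
density `1 / π`, a density `(1 ± cos (N t)) / π` with `N ≥ 1`, or half of the density `1 / π` and half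
of the uniform law on the points with `e^{iNt} = 1` or of that on the points with `e^{iNt} = -1`. -/
theorem result (K : Type) [Field K] [NumberField K] (θ : HeightOneSpectrum (𝓞 K) → ℝ)
    (h : ∀ m, 1 ≤ m → ∃ Λ : ℂ → ℂ, IsContinuation θ m 0 Λ) :
    FiniteLaw θ ∨ AnalyticLaw θ (waveLaw 0 0) ∨
      (∃ N : ℕ, 0 < N ∧ ∃ ε : ℝ, (ε = 1 ∨ ε = -1) ∧ AnalyticLaw θ (waveLaw ε N)) ∨
      (∃ N : ℕ, 0 < N ∧ ∃ κ : ℕ, κ ≤ 1 ∧
        AnalyticLaw θ fun f => (waveLaw 0 0 f + rootsLaw κ N f) / 2) := by
  have h' : ∀ m, ∃ Λ : ℂ → ℂ, 1 ≤ m → IsContinuation θ m 0 Λ := by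
    intro m
    by_cases hm : 1 ≤ m
    · obtain ⟨Λ, hΛ⟩ := h m hm
      exact ⟨Λ, fun _ => hΛ⟩
    · exact ⟨0, fun h => absurd h hm⟩
  choose Λ hΛ using h'
  obtain ⟨o, a, -, ha, -⟩ := moments hΛ
  rcases ha.laws with h | h | ⟨n, hn, ε, hε, h⟩ | ⟨n, hn, κ, hκ, h⟩
  · exact Or.inl (fin_of h)
  · exact Or.inr (Or.inl (analytic_of h))
  · refine Or.inr (Or.inr (Or.inl ⟨n, hn, ε, ?_, analytic_of h⟩))
    rcases hε with h1 | h1
    · left; rw [h1]; norm_num
    · right; rw [h1]; norm_num
  · exact Or.inr (Or.inr (Or.inr ⟨n, hn, κ, hκ, analytic_of h⟩))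

end Pool.Agent.Results.MP_4c4ce6_nt.AngleLaws
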