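import Mathlib

/-!
# One-dimensional lattice heat kernels with differences: contour shift bound
-/

namespace Pool.Agent.T2h85.KA

open MeasureTheory Set Filter Topology

noncomputable section

/-- the one dimensional integrand -/
def F (p m : ℕ) (t : ℝ) (n : ℤ) (w : ℂ) : ℂ :=
  (Complex.exp (Complex.I * w) - 1) ^ p * (Complex.exp (-(Complex.I * w)) - 1) ^ m *
    Complex.exp (-(2 * t * (1 - Complex.cos w))) * Complex.exp (Complex.I * (n * w))

/-- the one dimensional kernel -/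
def Q (p m : ℕ) (t : ℝ) (n : ℤ) : ℂ :=
  ((2 * Real.pi)⁻¹ : ℝ) * ∫ θ in (-Real.pi)..Real.pi, F p m t n θ

lemma F_differentiable (p m : ℕ) (t : ℝ) (n : ℤ) : Differentiable ℂ (F p m t n) := by
  unfold F
  fun_prop

lemma F_continuous (p m : ℕ) (t : ℝ) (n : ℤ) : Continuous (F p m t n) :=
  (F_differentiable p m t n).continuous

lemma F_periodic (p m : ℕ) (t : ℝ) (n : ℤ) (w : ℂ) :
    F p m t n (w + 2 * Real.pi) = F p m t n w := by
  unfold F
  have h1 : Complex.exp (Complex.I * (w + 2 * Real.pi)) = Complex.exp (Complex.I * w) := by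
    rw [mul_add, Complex.exp_add]
    have : Complex.I * (2 * (Real.pi : ℂ)) = 2 * Real.pi * Complex.I := by ring
    rw [this, Complex.exp_two_pi_mul_I, mul_one]
  have h2 : Complex.exp (-(Complex.I * (w + 2 * Real.pi))) = Complex.exp (-(Complex.I * w)) := by
    rw [Complex.exp_neg, Complex.exp_neg, h1]
  have h3 : Complex.exp (Complex.I * (n * (w + 2 * Real.pi))) =
      Complex.exp (Complex.I * (n * w)) := by
    have : Complex.I * (n * (w + 2 * (Real.pi : ℂ))) =
        Complex.I * (n * w) + n * (2 * Real.pi * Complex.I) := by ring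
    rw [this, Complex.exp_add, Complex.exp_int_mul_two_pi_mul_I, mul_one]
  rw [h1, h2, h3]
  have h4 : Complex.cos (w + 2 * Real.pi) = Complex.cos w := Complex.cos_add_two_pi w
  rw [h4]

/-- contour shift -/
lemma shift (p m : ℕ) (t : ℝ) (n : ℤ) (η : ℝ) :
    ∫ θ in (-Real.pi)..Real.pi, F p m t n θ =
      ∫ θ in (-Real.pi)..Real.pi, F p m t n (θ + η * Complex.I) := by
  have h := Complex.integral_boundary_rect_eq_zero_of_differentiableOn (F p m t n)
    (-Real.pi : ℂ) (Real.pi + η * Complex.I) (F_differentiable p m t n).differentiableOn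
  have e1 : ((-Real.pi : ℂ)).re = -Real.pi := by simp
  have e2 : ((-Real.pi : ℂ)).im = 0 := by simp
  have e3 : ((Real.pi + η * Complex.I : ℂ)).re = Real.pi := by simp
  have e4 : ((Real.pi + η * Complex.I : ℂ)).im = η := by simp
  rw [e1, e2, e3, e4] at h
  have h5 : ∫ y in (0:ℝ)..η, F p m t n ((Real.pi : ℝ) + y * Complex.I) =
      ∫ y in (0:ℝ)..η, F p m t n (((-Real.pi : ℝ) : ℂ) + y * Complex.I) := by
    refine intervalIntegral.integral_congr fun y _ => ?_
    rw [← F_periodic p m t n (((-Real.pi : ℝ) : ℂ) + y * Complex.I)]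
    congr 1
    push_cast
    ring
  rw [h5] at h
  simp only [Complex.ofReal_zero, zero_mul, add_zero] at h
  have h6 := sub_eq_zero.1 (by simpa using h :
    (∫ θ in (-Real.pi)..Real.pi, F p m t n θ) -
      ∫ θ in (-Real.pi)..Real.pi, F p m t n (θ + η * Complex.I) = 0)
  exact h6

/-- bound of the difference factors -/
lemma norm_exp_sub_one (θ η : ℝ) (hη : |η| ≤ 1) :
    ‖Complex.exp (Complex.I * (θ + η * Complex.I)) - 1‖ ≤ 3 * (|θ| + |η|) := by
  have e : Complex.exp (Complex.I * (θ + η * Complex.I)) - 1 =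
      (Real.exp (-η) : ℝ) * (Complex.exp (Complex.I * θ) - 1) + ((Real.exp (-η) - 1 : ℝ) : ℂ) := by
    have : Complex.I * (θ + η * Complex.I) = Complex.I * θ + ((-η : ℝ) : ℂ) := by
      push_cast
      linear_combination (η : ℂ) * Complex.I_sq
    rw [this, Complex.exp_add]
    push_cast
    ring
  rw [e]
  refine (norm_add_le _ _).trans ?_
  rw [norm_mul, Complex.norm_real, Complex.norm_real, Real.norm_eq_abs, Real.norm_eq_abs,
    abs_of_pos (Real.exp_pos _)]
  have h1 : Real.exp (-η) ≤ 3 := by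
    have : Real.exp (-η) ≤ Real.exp 1 := Real.exp_le_exp.2 (by
      have := neg_abs_le η
      have := abs_le.1 hη
      linarith)
    have := Real.exp_one_lt_d9
    linarith
  have h2 : |Real.exp (-η) - 1| ≤ 2 * |η| := by
    have := Real.abs_exp_sub_one_le (x := -η) (by rwa [abs_neg])
    rwa [abs_neg] at this
  have h3 : ‖Complex.exp (Complex.I * θ) - 1‖ ≤ |θ| := by
    simpa using Real.norm_exp_I_mul_ofReal_sub_one_le (x := θ)
  have h4 : Real.exp (-η) * ‖Complex.exp (Complex.I * θ) - 1‖ ≤ 3 * |θ| :=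
    mul_le_mul h1 h3 (norm_nonneg _) (by norm_num)
  have := abs_nonneg η
  linarith

lemma norm_exp_neg_sub_one (θ η : ℝ) (hη : |η| ≤ 1) :
    ‖Complex.exp (-(Complex.I * (θ + η * Complex.I))) - 1‖ ≤ 3 * (|θ| + |η|) := by
  have := norm_exp_sub_one (-θ) (-η) (by rwa [abs_neg])
  rw [abs_neg, abs_neg] at this
  convert this using 4
  push_cast
  ring

lemma cosh_sub_one_le (η : ℝ) (hη : |η| ≤ 1) : Real.cosh η - 1 ≤ η ^ 2 := by
  have h1 := Real.cosh_le_exp_half_sq η
  have h0 : η ^ 2 ≤ 1 := by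
    rw [← sq_abs]
    have := abs_nonneg η
    nlinarith
  have h2 : |Real.exp (η ^ 2 / 2) - 1| ≤ 2 * |η ^ 2 / 2| := Real.abs_exp_sub_one_le (by
    rw [abs_of_nonneg (by positivity)]
    linarith)
  rw [abs_of_nonneg (by positivity : (0:ℝ) ≤ η ^ 2 / 2)] at h2
  have h3 := le_abs_self (Real.exp (η ^ 2 / 2) - 1)
  linarith

/-- the heat factor on the shifted line -/
lemma norm_heat (t θ η : ℝ) (ht : 0 ≤ t) (hθ : |θ| ≤ Real.pi) (hη : |η| ≤ 1) :
    ‖Complex.exp (-(2 * t * (1 - Complex.cos (θ + η * Complex.I))))‖ ≤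
      Real.exp (2 * t * η ^ 2) * Real.exp (-(4 * t * θ ^ 2 / Real.pi ^ 2)) := by
  rw [Complex.norm_exp, ← Real.exp_add]
  apply Real.exp_le_exp.2
  have e : (-(2 * (t:ℂ) * (1 - Complex.cos (θ + η * Complex.I)))).re =
      -(2 * t * (1 - Real.cos θ * Real.cosh η)) := by
    have h2 : Complex.cos (θ + η * Complex.I) =
        ((Real.cos θ * Real.cosh η : ℝ) : ℂ) - ((Real.sin θ * Real.sinh η : ℝ) : ℂ) * Complex.I := by
      rw [Complex.cos_add_mul_I]
      push_cast
      ring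
    rw [h2]
    have h3 : (-(2 * (t:ℂ) * (1 - (((Real.cos θ * Real.cosh η : ℝ) : ℂ) -
        ((Real.sin θ * Real.sinh η : ℝ) : ℂ) * Complex.I)))) =
        ((-(2 * t * (1 - Real.cos θ * Real.cosh η)) : ℝ) : ℂ) +
        ((-(2 * t * (Real.sin θ * Real.sinh η)) : ℝ) : ℂ) * Complex.I := by
      push_cast
      ring
    rw [h3]
    simp only [Complex.add_re, Complex.ofReal_re, Complex.mul_re, Complex.I_re, mul_zero,
      Complex.ofReal_im, Complex.I_im, mul_one, sub_self, add_zero]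
  rw [e]
  have h1 := cosh_sub_one_le η hη
  have h2 := Real.cos_le_one_sub_mul_cos_sq hθ
  have h3 := Real.one_le_cosh η
  have h4 : Real.cos θ ≤ 1 := Real.cos_le_one θ
  -- 1 - cos θ cosh η = (1 - cosh η) + cosh η (1 - cos θ)
  have h5 : 1 - Real.cos θ * Real.cosh η ≥ -η ^ 2 + 2 / Real.pi ^ 2 * θ ^ 2 := by
    nlinarith
  have h6 : 2 * t * (1 - Real.cos θ * Real.cosh η) ≥
      2 * t * (-η ^ 2 + 2 / Real.pi ^ 2 * θ ^ 2) :=
    mul_le_mul_of_nonneg_left h5 (by positivity)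
  have h7 : 4 * t * θ ^ 2 / Real.pi ^ 2 = 2 * t * (2 / Real.pi ^ 2 * θ ^ 2) := by ring
  rw [h7]
  linarith

/-- the oscillating factor on the shifted line -/
lemma norm_osc (n : ℤ) (θ η : ℝ) :
    ‖Complex.exp (Complex.I * (n * (θ + η * Complex.I)))‖ = Real.exp (-(n * η)) := by
  rw [Complex.norm_exp]
  congr 1
  have : Complex.I * (n * (θ + η * Complex.I)) =
      ((-(n * η) : ℝ) : ℂ) + ((n * θ : ℝ) : ℂ) * Complex.I := by
    push_cast
    linear_combination ((n : ℂ) * η) * Complex.I_sq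
  rw [this]
  simp

lemma norm_F (p m : ℕ) (t : ℝ) (ht : 0 ≤ t) (n : ℤ) (θ η : ℝ) (hθ : |θ| ≤ Real.pi)
    (hη : |η| ≤ 1) :
    ‖F p m t n (θ + η * Complex.I)‖ ≤ (3 * (|θ| + |η|)) ^ (p + m) *
      (Real.exp (2 * t * η ^ 2) * Real.exp (-(4 * t * θ ^ 2 / Real.pi ^ 2))) *
      Real.exp (-(n * η)) := by
  unfold F
  rw [norm_mul, norm_mul, norm_mul, norm_pow, norm_pow, norm_osc, pow_add]
  gcongr
  · exact norm_exp_sub_one θ η hη
  · exact norm_exp_neg_sub_one θ η hη
  · exact norm_heat t θ η ht hθ hη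

/-- the Gaussian weight -/
def gw (q : ℕ) (u : ℝ) : ℝ := (|u| + 1) ^ q * Real.exp (-(4 / Real.pi ^ 2 * u ^ 2))

lemma gw_nonneg (q : ℕ) (u : ℝ) : 0 ≤ gw q u := by
  unfold gw
  positivity

lemma gw_continuous (q : ℕ) : Continuous (gw q) := by
  unfold gw
  fun_prop

lemma gw_integrable (q : ℕ) : Integrable (gw q) := by
  set b : ℝ := 4 / Real.pi ^ 2 with hb
  have hb0 : 0 < b := by positivity
  have h1 : Integrable fun u : ℝ =>
      (q.factorial : ℝ) * Real.exp (1 + 1 / (2 * b)) * Real.exp (-(b / 2) * u ^ 2) :=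
    (integrable_exp_neg_mul_sq (by positivity)).const_mul _
  refine h1.mono' (gw_continuous q).aestronglyMeasurable (Eventually.of_forall fun u => ?_)
  rw [Real.norm_of_nonneg (gw_nonneg q u)]
  unfold gw
  rw [← hb]
  have h2 : (|u| + 1) ^ q ≤ (q.factorial : ℝ) * Real.exp (|u| + 1) := by
    have := Real.pow_div_factorial_le_exp (x := |u| + 1) (by positivity) q
    rw [div_le_iff₀ (by positivity)] at this
    linarith
  calc (|u| + 1) ^ q * Real.exp (-(b * u ^ 2))
      ≤ (q.factorial : ℝ) * Real.exp (|u| + 1) * Real.exp (-(b * u ^ 2)) := by gcongr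
    _ = (q.factorial : ℝ) * Real.exp (|u| + 1 - b * u ^ 2) := by
        rw [mul_assoc, ← Real.exp_add]
        ring_nf
    _ ≤ (q.factorial : ℝ) * Real.exp (1 + 1 / (2 * b) + -(b / 2) * u ^ 2) := by
        gcongr
        have : |u| ≤ 1 / (2 * b) + b / 2 * u ^ 2 := by
          have h3 : 0 ≤ (b * |u| - 1) ^ 2 := sq_nonneg _
          have h4 : |u| ^ 2 = u ^ 2 := sq_abs u
          have h5 : 1 / (2 * b) + b / 2 * u ^ 2 - |u| = (b * |u| - 1) ^ 2 / (2 * b) := by
            rw [← h4]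
            field_simp
            ring
          have h6 : 0 ≤ (b * |u| - 1) ^ 2 / (2 * b) := by positivity
          linarith
        linarith
    _ = _ := by rw [Real.exp_add]; ring

/-- the Gaussian integral constant -/
def GC (q : ℕ) : ℝ := ∫ u : ℝ, gw q u

lemma GC_nonneg (q : ℕ) : 0 ≤ GC q := integral_nonneg (gw_nonneg q)

/-- the constant of the kernel bound -/
def QC (q : ℕ) : ℝ := Real.exp 6 * 3 ^ q * GC q

lemma QC_nonneg (q : ℕ) : 0 ≤ QC q := by
  have := GC_nonneg q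
  unfold QC
  positivity

/-- the inverse of the diffusive length, cut off at one -/
def et (t : ℝ) : ℝ := (Real.sqrt (max 1 t))⁻¹

lemma et_pos (t : ℝ) : 0 < et t := by
  unfold et
  have : (0:ℝ) < max 1 t := lt_max_of_lt_left one_pos
  positivity

lemma et_le_one (t : ℝ) : et t ≤ 1 := by
  unfold et
  apply inv_le_one_of_one_le₀
  rw [Real.one_le_sqrt]
  exact le_max_left _ _

lemma et_sq (t : ℝ) : et t ^ 2 = (max 1 t)⁻¹ := by
  unfold et
  rw [inv_pow, Real.sq_sqrt (le_max_of_le_left zero_le_one)]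

/-- the kernel bound -/
theorem Q_bound (p m : ℕ) (t : ℝ) (ht : 0 ≤ t) (n : ℤ) :
    ‖Q p m t n‖ ≤ QC (p + m) * et t ^ (p + m + 1) * Real.exp (-(|(n:ℝ)| * et t)) := by
  set e := et t with he
  have he0 : 0 < e := et_pos t
  have he1 : e ≤ 1 := et_le_one t
  have hM : (0:ℝ) < max 1 t := lt_max_of_lt_left one_pos
  have hes : e ^ 2 = (max 1 t)⁻¹ := et_sq t
  obtain ⟨η, hη, hn⟩ : ∃ η : ℝ, |η| = e ∧ (n:ℝ) * η = |(n:ℝ)| * e := by
    rcases le_total 0 (n:ℝ) with h | h
    · exact ⟨e, abs_of_pos he0, by rw [abs_of_nonneg h]⟩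
    · exact ⟨-e, by rw [abs_neg, abs_of_pos he0], by rw [abs_of_nonpos h]; ring⟩
  have hη2 : η ^ 2 = e ^ 2 := by rw [← sq_abs, hη]
  have htη : 2 * t * η ^ 2 ≤ 2 := by
    rw [hη2, hes]
    have : t * (max 1 t)⁻¹ ≤ 1 := by
      rw [← div_eq_mul_inv, div_le_one hM]
      exact le_max_right _ _
    linarith
  unfold Q
  rw [shift p m t n η, norm_mul, Complex.norm_real,
    Real.norm_of_nonneg (by positivity : (0:ℝ) ≤ (2 * Real.pi)⁻¹)]
  have hpi : (1:ℝ) ≤ 2 * Real.pi := by linarith [Real.pi_gt_three]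
  have hpi' : (2 * Real.pi)⁻¹ ≤ 1 := inv_le_one_of_one_le₀ hpi
  -- pointwise bound
  have hpt : ∀ θ ∈ Ioc (-Real.pi) Real.pi, ‖F p m t n (θ + η * Complex.I)‖ ≤
      Real.exp 6 * 3 ^ (p + m) * Real.exp (-(|(n:ℝ)| * e)) * e ^ (p + m) * gw (p + m) (θ / e) := by
    intro θ hθ
    have hθ' : |θ| ≤ Real.pi := abs_le.2 ⟨hθ.1.le, hθ.2⟩
    refine (norm_F p m t ht n θ η hθ' (by rw [hη]; exact he1)).trans ?_
    rw [hn, hη]
    have h1 : (3 * (|θ| + e)) ^ (p + m) = 3 ^ (p + m) * e ^ (p + m) * (|θ / e| + 1) ^ (p + m) := by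
      rw [← mul_pow, ← mul_pow]
      congr 1
      rw [abs_div, abs_of_pos he0]
      field_simp
    have h2 : Real.exp (2 * t * η ^ 2) * Real.exp (-(4 * t * θ ^ 2 / Real.pi ^ 2)) ≤
        Real.exp 6 * Real.exp (-(4 / Real.pi ^ 2 * (θ / e) ^ 2)) := by
      rw [← Real.exp_add, ← Real.exp_add]
      apply Real.exp_le_exp.2
      rw [div_pow, hes]
      have hpp : (0:ℝ) < Real.pi ^ 2 := by positivity
      have h3 : θ ^ 2 ≤ Real.pi ^ 2 := by
        rw [← sq_abs θ]
        exact pow_le_pow_left₀ (abs_nonneg _) hθ' 2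
      have h4 : θ ^ 2 / Real.pi ^ 2 ≤ 1 := by rwa [div_le_one hpp]
      have h5 : max 1 t ≤ 1 + t := max_le (by linarith) (by linarith)
      have h6 : (0:ℝ) ≤ θ ^ 2 / Real.pi ^ 2 := by positivity
      have h7 : 4 / Real.pi ^ 2 * (θ ^ 2 / (max 1 t)⁻¹) = 4 * (θ ^ 2 / Real.pi ^ 2) * max 1 t := by
        field_simp
      have h8 : 4 * t * θ ^ 2 / Real.pi ^ 2 = 4 * (θ ^ 2 / Real.pi ^ 2) * t := by ring
      rw [h7, h8]
      have h9 : 4 * (θ ^ 2 / Real.pi ^ 2) * max 1 t ≤ 4 * (θ ^ 2 / Real.pi ^ 2) * (1 + t) := by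
        gcongr
      nlinarith
    rw [h1]
    unfold gw
    calc 3 ^ (p + m) * e ^ (p + m) * (|θ / e| + 1) ^ (p + m) *
        (Real.exp (2 * t * η ^ 2) * Real.exp (-(4 * t * θ ^ 2 / Real.pi ^ 2))) *
        Real.exp (-(|(n:ℝ)| * e))
        ≤ 3 ^ (p + m) * e ^ (p + m) * (|θ / e| + 1) ^ (p + m) *
        (Real.exp 6 * Real.exp (-(4 / Real.pi ^ 2 * (θ / e) ^ 2))) *
        Real.exp (-(|(n:ℝ)| * e)) := by gcongr
      _ = _ := by ring
  have hgi : Integrable fun θ : ℝ => Real.exp 6 * 3 ^ (p + m) * Real.exp (-(|(n:ℝ)| * e)) *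
      e ^ (p + m) * gw (p + m) (θ / e) :=
    ((gw_integrable (p + m)).comp_div he0.ne').const_mul _
  have hle : -Real.pi ≤ Real.pi := by linarith [Real.pi_pos]
  have hI : ‖∫ θ in (-Real.pi)..Real.pi, F p m t n (θ + η * Complex.I)‖ ≤
      ∫ θ : ℝ, Real.exp 6 * 3 ^ (p + m) * Real.exp (-(|(n:ℝ)| * e)) *
      e ^ (p + m) * gw (p + m) (θ / e) := by
    rw [intervalIntegral.integral_of_le hle]
    calc ‖∫ θ in Ioc (-Real.pi) Real.pi, F p m t n (θ + η * Complex.I)‖
        ≤ ∫ θ in Ioc (-Real.pi) Real.pi, Real.exp 6 * 3 ^ (p + m) *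
          Real.exp (-(|(n:ℝ)| * e)) * e ^ (p + m) * gw (p + m) (θ / e) := by
          refine norm_integral_le_of_norm_le hgi.integrableOn ?_
          exact (ae_restrict_iff' measurableSet_Ioc).2 (Eventually.of_forall hpt)
      _ ≤ _ := by
          refine setIntegral_le_integral hgi (Eventually.of_forall fun θ => ?_)
          have := gw_nonneg (p + m) (θ / e)
          simp only [Pi.zero_apply]
          positivity
  rw [integral_const_mul, Measure.integral_comp_div, abs_of_pos he0, smul_eq_mul] at hI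
  have hG : ∫ u : ℝ, gw (p + m) u = GC (p + m) := rfl
  rw [hG] at hI
  calc (2 * Real.pi)⁻¹ * ‖∫ θ in (-Real.pi)..Real.pi, F p m t n (θ + η * Complex.I)‖
      ≤ 1 * (Real.exp 6 * 3 ^ (p + m) * Real.exp (-(|(n:ℝ)| * e)) * e ^ (p + m) *
        (e * GC (p + m))) := by gcongr
    _ = _ := by unfold QC; ring

end

end Pool.Agent.T2h85.KA
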