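import Pool.Agent.T2h85.KA1

/-!
# Scaling limit of the one-dimensional kernels
-/

namespace Pool.Agent.T2h85.KA

open MeasureTheory Set Filter Topology

noncomputable section

/-- the continuum integrand -/
def H (p m : ℕ) (T X κ : ℝ) : ℂ :=
  (Complex.I * κ) ^ p * (-(Complex.I * κ)) ^ m *
    Complex.exp (-(T * (Complex.I * κ * -(Complex.I * κ)))) * Complex.exp (Complex.I * (X * κ))

/-- the continuum kernel -/
def G (p m : ℕ) (T X : ℝ) : ℂ := ((2 * Real.pi)⁻¹ : ℝ) * ∫ κ : ℝ, H p m T X κ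

lemma tendsto_slope_exp (κ : ℝ) {a : ℕ → ℝ} (ha : ∀ i, 0 < a i)
    (ha0 : Tendsto a atTop (𝓝 0)) :
    Tendsto (fun i => (Complex.exp (Complex.I * ((a i * κ : ℝ) : ℂ)) - 1) / (a i : ℂ)) atTop
      (𝓝 (Complex.I * κ)) := by
  have hd : HasDerivAt (fun x : ℝ => Complex.exp (Complex.I * ((x * κ : ℝ) : ℂ)))
      (Complex.I * κ) 0 := by
    have h1 : HasDerivAt (fun x : ℝ => Complex.I * ((x * κ : ℝ) : ℂ)) (Complex.I * κ) 0 := by
      have h2 : HasDerivAt (fun x : ℝ => x * κ) κ 0 := hasDerivAt_mul_const κ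
      exact (h2.ofReal_comp).const_mul Complex.I
    have h3 := h1.cexp
    simpa using h3
  have h := hd.tendsto_slope_zero
  have ha' : Tendsto a atTop (𝓝[≠] 0) :=
    tendsto_nhdsWithin_iff.2 ⟨ha0, Eventually.of_forall fun i => (ha i).ne'⟩
  have h2 := h.comp ha'
  refine h2.congr fun i => ?_
  simp only [Function.comp, zero_add, zero_mul, Complex.ofReal_zero, mul_zero, Complex.exp_zero]
  rw [Complex.real_smul]
  push_cast
  ring

lemma two_one_sub_cos (x : ℂ) :
    2 * (1 - Complex.cos x) =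
      (Complex.exp (Complex.I * x) - 1) * (Complex.exp (-(Complex.I * x)) - 1) := by
  have h : Complex.exp (Complex.I * x) * Complex.exp (-(Complex.I * x)) = 1 := by
    rw [← Complex.exp_add, add_neg_cancel, Complex.exp_zero]
  have h2 : Complex.exp (Complex.I * x) + Complex.exp (-(Complex.I * x)) = 2 * Complex.cos x := by
    rw [Complex.cos]
    rw [show x * Complex.I = Complex.I * x by ring, show -x * Complex.I = -(Complex.I * x) by ring]
    ring
  linear_combination h2 - h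

/-- scaled integrand -/
def FS (p m : ℕ) (T a : ℝ) (z : ℤ) (κ : ℝ) : ℂ :=
  ((Complex.exp (Complex.I * ((a * κ : ℝ) : ℂ)) - 1) / a) ^ p *
    ((Complex.exp (-(Complex.I * ((a * κ : ℝ) : ℂ))) - 1) / a) ^ m *
    Complex.exp (-(T * (((Complex.exp (Complex.I * ((a * κ : ℝ) : ℂ)) - 1) / a) *
      ((Complex.exp (-(Complex.I * ((a * κ : ℝ) : ℂ))) - 1) / a)))) *
    Complex.exp (Complex.I * (((a * z : ℝ) : ℂ) * κ))

lemma F_scaled (p m : ℕ) (T a : ℝ) (ha : 0 < a) (z : ℤ) (κ : ℝ) :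
    F p m (T / a ^ 2) z ((a * κ : ℝ) : ℂ) = (a : ℂ) ^ (p + m) * FS p m T a z κ := by
  have ha' : (a : ℂ) ≠ 0 := by exact_mod_cast ha.ne'
  unfold F FS
  have e1 : -(2 * ((T / a ^ 2 : ℝ) : ℂ) * (1 - Complex.cos ((a * κ : ℝ) : ℂ))) =
      -(T * (((Complex.exp (Complex.I * ((a * κ : ℝ) : ℂ)) - 1) / a) *
      ((Complex.exp (-(Complex.I * ((a * κ : ℝ) : ℂ))) - 1) / a))) := by
    have := two_one_sub_cos ((a * κ : ℝ) : ℂ)
    have h2 : -(2 * ((T / a ^ 2 : ℝ) : ℂ) * (1 - Complex.cos ((a * κ : ℝ) : ℂ))) =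
      -(T / a ^ 2 * (2 * (1 - Complex.cos ((a * κ : ℝ) : ℂ)))) := by
      push_cast
      ring
    rw [h2, this]
    field_simp
  rw [e1]
  have e2 : Complex.I * ((z : ℂ) * ((a * κ : ℝ) : ℂ)) =
      Complex.I * (((a * z : ℝ) : ℂ) * κ) := by
    push_cast
    ring
  rw [e2, div_pow, div_pow, pow_add]
  field_simp

/-- pointwise convergence of the integrand -/
lemma FS_tendsto (p m : ℕ) (T X κ : ℝ) {a : ℕ → ℝ} (ha : ∀ i, 0 < a i)
    (ha0 : Tendsto a atTop (𝓝 0)) {z : ℕ → ℤ}
    (hz : Tendsto (fun i => a i * (z i : ℝ)) atTop (𝓝 X)) :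
    Tendsto (fun i => FS p m T (a i) (z i) κ) atTop (𝓝 (H p m T X κ)) := by
  have h1 := tendsto_slope_exp κ ha ha0
  have h2 : Tendsto (fun i => (Complex.exp (-(Complex.I * ((a i * κ : ℝ) : ℂ))) - 1) / (a i : ℂ))
      atTop (𝓝 (-(Complex.I * κ))) := by
    have h := tendsto_slope_exp (-κ) ha ha0
    have e : ∀ i, Complex.I * ((a i * -κ : ℝ) : ℂ) = -(Complex.I * ((a i * κ : ℝ) : ℂ)) := by
      intro i
      push_cast
      ring
    simp only [e] at h
    have e2 : Complex.I * ((-κ : ℝ) : ℂ) = -(Complex.I * κ) := by push_cast; ring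
    rwa [e2] at h
  have h3 : Tendsto (fun i => ((a i * (z i : ℝ) : ℝ) : ℂ)) atTop (𝓝 (X : ℂ)) :=
    (Complex.continuous_ofReal.tendsto X).comp hz
  unfold FS H
  refine ((((h1.pow p).mul (h2.pow m)).mul ?_)).mul ?_
  · exact (Complex.continuous_exp.tendsto _).comp (((h1.mul h2).const_mul (T : ℂ)).neg)
  · exact (Complex.continuous_exp.tendsto _).comp ((h3.mul_const (κ : ℂ)).const_mul Complex.I)

/-- uniform bound of the integrand -/
lemma FS_bound (p m : ℕ) (T a : ℝ) (hT : 0 < T) (ha : 0 < a) (z : ℤ) (κ : ℝ)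
    (hκ : |a * κ| ≤ Real.pi) :
    ‖FS p m T a z κ‖ ≤ (3 / Real.sqrt T) ^ (p + m) * gw (p + m) (Real.sqrt T * κ) := by
  have h := norm_F p m (T / a ^ 2) (by positivity) z (a * κ) 0 hκ (by simp)
  simp only [Complex.ofReal_zero, zero_mul, add_zero, abs_zero, ne_eq, OfNat.ofNat_ne_zero,
    not_false_eq_true, zero_pow, mul_zero, Real.exp_zero, one_mul, neg_zero, mul_one] at h
  rw [F_scaled p m T a ha z κ, norm_mul, norm_pow, Complex.norm_real, Real.norm_of_nonneg ha.le,
    abs_mul, abs_of_pos ha] at h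
  have hap : (0:ℝ) < a ^ (p + m) := by positivity
  have e : (3 * (a * |κ|)) ^ (p + m) = a ^ (p + m) * (3 * |κ|) ^ (p + m) := by
    rw [← mul_pow]
    ring
  rw [e, mul_assoc] at h
  have h2 := le_of_mul_le_mul_left h hap
  refine h2.trans ?_
  have hs : 0 < Real.sqrt T := Real.sqrt_pos.2 hT
  have hss : Real.sqrt T ^ 2 = T := Real.sq_sqrt hT.le
  unfold gw
  have e3 : 4 * (T / a ^ 2) * (a * κ) ^ 2 / Real.pi ^ 2 = 4 / Real.pi ^ 2 * (Real.sqrt T * κ) ^ 2 := by
    rw [mul_pow (Real.sqrt T), hss]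
    field_simp
  rw [e3, ← mul_assoc, ← mul_pow]
  have h5 : 3 * |κ| ≤ 3 / Real.sqrt T * (|Real.sqrt T * κ| + 1) := by
    rw [abs_mul, abs_of_pos hs]
    have : 3 / Real.sqrt T * (Real.sqrt T * |κ| + 1) = 3 * |κ| + 3 / Real.sqrt T := by
      field_simp
    rw [this]
    have : 0 < 3 / Real.sqrt T := by positivity
    linarith
  exact mul_le_mul_of_nonneg_right (pow_le_pow_left₀ (by positivity) h5 _) (Real.exp_pos _).le

/-- the scaling limit of the one dimensional kernel -/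
theorem Q_tendsto (p m : ℕ) (T X : ℝ) (hT : 0 < T) {a : ℕ → ℝ} (ha : ∀ i, 0 < a i)
    (ha0 : Tendsto a atTop (𝓝 0)) {z : ℕ → ℤ}
    (hz : Tendsto (fun i => a i * (z i : ℝ)) atTop (𝓝 X)) :
    Tendsto (fun i => (((a i)⁻¹ ^ (p + m + 1) : ℝ) : ℂ) * Q p m (T / a i ^ 2) (z i)) atTop
      (𝓝 (G p m T X)) := by
  have key : ∀ i, (((a i)⁻¹ ^ (p + m + 1) : ℝ) : ℂ) * Q p m (T / a i ^ 2) (z i) =
      ((2 * Real.pi)⁻¹ : ℝ) * ∫ κ : ℝ, indicator (Ioc (-(Real.pi / a i)) (Real.pi / a i))
        (FS p m T (a i) (z i)) κ := by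
    intro i
    have hai := ha i
    have ha' : (a i : ℂ) ≠ 0 := by exact_mod_cast hai.ne'
    have hle : -(Real.pi / a i) ≤ Real.pi / a i := by
      have : 0 < Real.pi / a i := div_pos Real.pi_pos hai
      linarith
    rw [integral_indicator measurableSet_Ioc, ← intervalIntegral.integral_of_le hle]
    have h1 := intervalIntegral.integral_comp_mul_left (a := -(Real.pi / a i))
      (b := Real.pi / a i) (fun x : ℝ => F p m (T / a i ^ 2) (z i) (x : ℂ)) hai.ne'
    have e1 : a i * -(Real.pi / a i) = -Real.pi := by field_simp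
    have e2 : a i * (Real.pi / a i) = Real.pi := by field_simp
    rw [e1, e2] at h1
    unfold Q
    have h2 : ∫ κ in (-(Real.pi / a i))..(Real.pi / a i), FS p m T (a i) (z i) κ =
        ((a i : ℂ) ^ (p + m))⁻¹ * ∫ x in (-(Real.pi / a i))..(Real.pi / a i),
          F p m (T / a i ^ 2) (z i) ((a i * x : ℝ) : ℂ) := by
      rw [← intervalIntegral.integral_const_mul]
      refine intervalIntegral.integral_congr fun κ _ => ?_
      simp only [F_scaled p m T (a i) hai (z i) κ]
      field_simp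
    rw [h2, h1, Complex.real_smul]
    have h7 : (((a i)⁻¹ ^ (p + m + 1) : ℝ) : ℂ) =
        ((a i : ℂ) ^ (p + m))⁻¹ * (((a i)⁻¹ : ℝ) : ℂ) := by
      push_cast
      rw [pow_succ, inv_pow]
    rw [h7]
    ring
  simp only [key]
  unfold G
  refine Tendsto.const_mul _ ?_
  refine tendsto_integral_of_dominated_convergence
    (fun κ => (3 / Real.sqrt T) ^ (p + m) * gw (p + m) (Real.sqrt T * κ)) ?_ ?_ ?_ ?_
  · intro i
    refine AEStronglyMeasurable.indicator ?_ measurableSet_Ioc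
    apply Continuous.aestronglyMeasurable
    unfold FS
    have := (ha i).ne'
    fun_prop
  · refine Integrable.const_mul ?_ _
    exact (gw_integrable (p + m)).comp_mul_left' (Real.sqrt_pos.2 hT).ne'
  · intro i
    refine Eventually.of_forall fun κ => ?_
    by_cases hκ : κ ∈ Ioc (-(Real.pi / a i)) (Real.pi / a i)
    · rw [indicator_of_mem hκ]
      refine FS_bound p m T (a i) hT (ha i) (z i) κ ?_
      rw [abs_mul, abs_of_pos (ha i)]
      have : |κ| ≤ Real.pi / a i := abs_le.2 ⟨hκ.1.le, hκ.2⟩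
      calc a i * |κ| ≤ a i * (Real.pi / a i) := by
            have := (ha i).le
            gcongr
        _ = Real.pi := by
            have := (ha i).ne'
            field_simp
    · rw [indicator_of_notMem hκ, norm_zero]
      have := gw_nonneg (p + m) (Real.sqrt T * κ)
      positivity
  · refine Eventually.of_forall fun κ => ?_
    have h1 := FS_tendsto p m T X κ ha ha0 hz
    refine h1.congr' ?_
    -- eventually κ lies in the window
    have h2 : Tendsto (fun i => a i * (|κ| + 1)) atTop (𝓝 0) := by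
      simpa using ha0.mul_const (|κ| + 1)
    have h3 : ∀ᶠ i in atTop, a i * (|κ| + 1) < Real.pi :=
      h2.eventually (gt_mem_nhds Real.pi_pos)
    filter_upwards [h3] with i hi
    have hai := ha i
    have h4 : |κ| + 1 < Real.pi / a i := by
      rw [lt_div_iff₀ hai]
      linarith
    have h5 := neg_abs_le κ
    have h6 := le_abs_self κ
    rw [indicator_of_mem]
    constructor <;> linarith

end

end Pool.Agent.T2h85.KA
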