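import Pool.Agent.T2h85.KA2
import Pool.Agent.T2h94.KDef

/-!
# Evaluation of the continuum kernels
-/

namespace Pool.Agent.T2h85.KA

open MeasureTheory Set Filter Topology

noncomputable section

/-- Gaussian wave -/
def W (T X κ : ℝ) : ℂ := Complex.exp (-(T * (κ : ℂ) ^ 2) + Complex.I * X * κ)

lemma W_norm (T X κ : ℝ) : ‖W T X κ‖ = Real.exp (-(T * κ ^ 2)) := by
  unfold W
  rw [Complex.norm_exp]
  congr 1
  have : (-(T * (κ : ℂ) ^ 2) + Complex.I * X * κ) =
      ((-(T * κ ^ 2) : ℝ) : ℂ) + ((X * κ : ℝ) : ℂ) * Complex.I := by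
    push_cast
    ring
  rw [this]
  simp only [Complex.add_re, Complex.ofReal_re, Complex.mul_re, Complex.I_re, mul_zero,
      Complex.ofReal_im, Complex.I_im, mul_one, sub_self, add_zero]

lemma W_continuous (T X : ℝ) : Continuous (W T X) := by
  unfold W
  fun_prop

lemma pow_mul_W_integrable (n : ℕ) (T X : ℝ) (hT : 0 < T) :
    Integrable fun κ : ℝ => (κ : ℂ) ^ n * W T X κ := by
  set s : ℝ := Real.sqrt T * (Real.pi / 2) with hs
  have hs0 : 0 < s := by
    have := Real.sqrt_pos.2 hT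
    positivity
  have hs2 : s ^ 2 = T * (Real.pi ^ 2 / 4) := by
    rw [hs, mul_pow, Real.sq_sqrt hT.le]
    ring
  have h1 : Integrable fun κ : ℝ => (s⁻¹) ^ n * gw n (s * κ) :=
    ((gw_integrable n).comp_mul_left' hs0.ne').const_mul _
  refine h1.mono' ?_ (Eventually.of_forall fun κ => ?_)
  · have := W_continuous T X
    apply Continuous.aestronglyMeasurable
    fun_prop
  · rw [norm_mul, norm_pow, Complex.norm_real, W_norm, Real.norm_eq_abs]
    unfold gw
    have e1 : 4 / Real.pi ^ 2 * (s * κ) ^ 2 = T * κ ^ 2 := by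
      rw [mul_pow, hs2]
      have := Real.pi_pos.ne'
      field_simp
    rw [e1, ← mul_assoc, ← mul_pow]
    have e2 : |κ| ≤ s⁻¹ * (|s * κ| + 1) := by
      rw [abs_mul, abs_of_pos hs0]
      have : s⁻¹ * (s * |κ| + 1) = |κ| + s⁻¹ := by field_simp
      rw [this]
      have : 0 < s⁻¹ := by positivity
      linarith
    exact mul_le_mul_of_nonneg_right (pow_le_pow_left₀ (abs_nonneg _) e2 _) (Real.exp_pos _).le

/-- moments -/
def J (n : ℕ) (T X : ℝ) : ℂ := ∫ κ : ℝ, (κ : ℂ) ^ n * W T X κ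

/-- the heat kernel -/
def g (T X : ℝ) : ℝ := (Real.sqrt (4 * Real.pi * T))⁻¹ * Real.exp (-(X ^ 2 / (4 * T)))

lemma J0_eq (T X : ℝ) (hT : 0 < T) :
    J 0 T X = ((2 * Real.pi * g T X : ℝ) : ℂ) := by
  have h := fourierIntegral_gaussian (b := (T : ℂ)) (by simpa using hT) (X : ℂ)
  unfold J
  have e : ∀ κ : ℝ, (κ : ℂ) ^ 0 * W T X κ =
      Complex.exp (Complex.I * X * κ) * Complex.exp (-T * (κ : ℂ) ^ 2) := by
    intro κ
    unfold W
    rw [pow_zero, one_mul, ← Complex.exp_add]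
    ring_nf
  simp only [e]
  rw [h]
  have h1 : ((Real.pi : ℂ) / T) ^ (1 / 2 : ℂ) = ((Real.sqrt (Real.pi / T) : ℝ) : ℂ) := by
    rw [Real.sqrt_eq_rpow, Complex.ofReal_cpow (by positivity)]
    push_cast
    rfl
  rw [h1]
  have h2 : Complex.exp (-(X : ℂ) ^ 2 / (4 * T)) = ((Real.exp (-(X ^ 2 / (4 * T))) : ℝ) : ℂ) := by
    push_cast
    ring_nf
  rw [h2, ← Complex.ofReal_mul]
  congr 1
  unfold g
  rw [← mul_assoc]
  congr 1
  have h3 : Real.sqrt (4 * Real.pi * T) = 2 * Real.pi / Real.sqrt (Real.pi / T) := by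
    rw [eq_div_iff (by positivity), ← Real.sqrt_mul (by positivity)]
    have : 4 * Real.pi * T * (Real.pi / T) = (2 * Real.pi) ^ 2 := by
      field_simp
      ring
    rw [this, Real.sqrt_sq (by positivity)]
  rw [h3]
  have := Real.pi_pos
  field_simp

lemma W_hasDerivAt (T X κ : ℝ) :
    HasDerivAt (W T X) ((-(2 * T * κ) + Complex.I * X) * W T X κ) κ := by
  unfold W
  have h1 : HasDerivAt (fun κ : ℝ => (κ : ℂ)) 1 κ := Complex.ofRealCLM.hasDerivAt
  have h2 : HasDerivAt (fun κ : ℝ => -(T * (κ : ℂ) ^ 2) + Complex.I * X * κ)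
      (-(T * (2 * κ)) + Complex.I * X) κ := by
    have := ((h1.pow 2).const_mul (T : ℂ)).neg.add (h1.const_mul (Complex.I * X))
    refine this.congr_deriv ?_
    simp
  refine h2.cexp.congr_deriv ?_
  ring

lemma J1_eq (T X : ℝ) (hT : 0 < T) : J 1 T X = Complex.I * X / (2 * T) * J 0 T X := by
  have hT' : (T : ℂ) ≠ 0 := by exact_mod_cast hT.ne'
  have i0 := pow_mul_W_integrable 0 T X hT
  have i1 := pow_mul_W_integrable 1 T X hT
  simp only [pow_zero, one_mul] at i0
  simp only [pow_one] at i1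
  have e : (fun κ : ℝ => (-(2 * T * κ) + Complex.I * X) * W T X κ) =
      fun κ : ℝ => (-(2 * T : ℂ)) * ((κ : ℂ) * W T X κ) + (Complex.I * X) * W T X κ := by
    funext κ
    ring
  have h := integral_eq_zero_of_hasDerivAt_of_integrable (W_hasDerivAt T X)
    (by rw [e]; exact (i1.const_mul _).add (i0.const_mul _)) i0
  rw [e, integral_add (i1.const_mul _) (i0.const_mul _), integral_const_mul,
    integral_const_mul] at h
  unfold J
  simp only [pow_zero, one_mul, pow_one]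
  field_simp
  linear_combination -h

lemma int3 {f g h : ℝ → ℂ} (hf : Integrable f) (hg : Integrable g) (hh : Integrable h) (a b : ℂ) :
    ∫ x, (f x + (a * g x + b * h x)) = (∫ x, f x) + (a * (∫ x, g x) + b * ∫ x, h x) := by
  have h1 : Integrable fun x => a * g x := hg.const_mul a
  have h2 : Integrable fun x => b * h x := hh.const_mul b
  have h3 : ∫ x, (f x + (a * g x + b * h x)) = (∫ x, f x) + ∫ x, (a * g x + b * h x) :=
    integral_add hf (h1.add h2)
  rw [h3, integral_add h1 h2, integral_const_mul, integral_const_mul]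

lemma J2_eq (T X : ℝ) (hT : 0 < T) :
    J 2 T X = ((1 / (2 * T) - X ^ 2 / (4 * T ^ 2) : ℝ) : ℂ) * J 0 T X := by
  have hT' : (T : ℂ) ≠ 0 := by exact_mod_cast hT.ne'
  have i0 := pow_mul_W_integrable 0 T X hT
  have i1 := pow_mul_W_integrable 1 T X hT
  have i2 := pow_mul_W_integrable 2 T X hT
  simp only [pow_zero, one_mul] at i0
  simp only [pow_one] at i1
  have hd : ∀ κ : ℝ, HasDerivAt (fun κ : ℝ => (κ : ℂ) * W T X κ)
      (W T X κ + (κ : ℂ) * ((-(2 * T * κ) + Complex.I * X) * W T X κ)) κ := by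
    intro κ
    have h1 : HasDerivAt (fun κ : ℝ => (κ : ℂ)) 1 κ := Complex.ofRealCLM.hasDerivAt
    have := h1.mul (W_hasDerivAt T X κ)
    refine this.congr_deriv ?_
    ring
  have e : (fun κ : ℝ => W T X κ + (κ : ℂ) * ((-(2 * T * κ) + Complex.I * X) * W T X κ)) =
      fun κ : ℝ => W T X κ + ((-(2 * T : ℂ)) * ((κ : ℂ) ^ 2 * W T X κ) +
        (Complex.I * X) * ((κ : ℂ) * W T X κ)) := by
    funext κ
    ring
  have h := integral_eq_zero_of_hasDerivAt_of_integrable hd
    (by rw [e]; exact i0.add ((i2.const_mul _).add (i1.const_mul _))) i1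
  rw [e, int3 i0 i2 i1] at h
  have h1 := J1_eq T X hT
  unfold J at h1 ⊢
  simp only [pow_zero, one_mul, pow_one] at h1 ⊢
  rw [h1] at h
  push_cast
  field_simp at h ⊢
  linear_combination -2 * h + 2 * (X : ℂ) ^ 2 * (∫ (a : ℝ), W T X a) * Complex.I_sq

lemma H_eq (p m : ℕ) (T X κ : ℝ) :
    H p m T X κ = (Complex.I ^ p * (-Complex.I) ^ m) * ((κ : ℂ) ^ (p + m) * W T X κ) := by
  unfold H W
  rw [Complex.exp_add]
  have e1 : -((T : ℂ) * (Complex.I * κ * -(Complex.I * κ))) = -(T * (κ : ℂ) ^ 2) := by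
    linear_combination (T * (κ : ℂ) ^ 2) * Complex.I_sq
  have e2 : Complex.I * ((X : ℂ) * κ) = Complex.I * X * κ := by ring
  rw [e1, e2, mul_pow, show -(Complex.I * (κ : ℂ)) = (-Complex.I) * κ by ring, mul_pow, pow_add]
  ring

lemma G_eq (p m : ℕ) (T X : ℝ) :
    G p m T X = ((2 * Real.pi)⁻¹ : ℝ) * ((Complex.I ^ p * (-Complex.I) ^ m) * J (p + m) T X) := by
  unfold G J
  simp only [H_eq]
  rw [integral_const_mul]

/-- the polynomial factor of the continuum kernels -/
def cf (p m : ℕ) (T x : ℝ) : ℝ :=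
  (if p = 1 then -(x / (2 * T)) else 1) * (if m = 1 then x / (2 * T) else 1) +
    (if p = 1 ∧ m = 1 then 1 / (2 * T) else 0)

lemma G_eval (p m : ℕ) (hp : p ≤ 1) (hm : m ≤ 1) (T X : ℝ) (hT : 0 < T) :
    G p m T X = ((cf p m T X * g T X : ℝ) : ℂ) := by
  have hT' : (T : ℂ) ≠ 0 := by exact_mod_cast hT.ne'
  have hpi : (Real.pi : ℂ) ≠ 0 := by exact_mod_cast Real.pi_ne_zero
  rw [G_eq]
  unfold cf
  interval_cases p <;> interval_cases m
  · simp only [pow_zero, one_mul, add_zero, J0_eq T X hT]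
    simp only [zero_ne_one, if_false, false_and, add_zero, one_mul]
    push_cast
    field_simp
  · simp only [pow_zero, one_mul, zero_add, pow_one, J1_eq T X hT, J0_eq T X hT]
    simp only [zero_ne_one, if_false, if_true, false_and, add_zero, one_mul]
    push_cast
    field_simp
    linear_combination (-(X : ℂ) * g T X) * Complex.I_sq
  · simp only [pow_zero, mul_one, add_zero, pow_one, J1_eq T X hT, J0_eq T X hT]
    simp only [zero_ne_one, if_false, if_true, and_false, add_zero, mul_one]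
    push_cast
    field_simp
    linear_combination ((X : ℂ) * g T X) * Complex.I_sq
  · simp only [pow_one, Nat.reduceAdd, J2_eq T X hT, J0_eq T X hT]
    simp only [if_true, and_self]
    push_cast
    field_simp
    ring_nf
    simp only [Complex.I_sq]
    ring

/-- the product of the kernels over the coordinates -/
theorem prod_G {d : ℕ} (l j : Fin d) (X : Fin d → ℝ) (T : ℝ) (hT : 0 < T) :
    ∏ i, G (if i = l then 1 else 0) (if i = j then 1 else 0) T (X i) =
      ((((if l = j then 1 / (2 * T) else 0) - X l * X j / (4 * T ^ 2)) *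
        (((Real.sqrt (4 * Real.pi * T))⁻¹) ^ d * Real.exp (-((∑ i, X i ^ 2) / (4 * T)))) : ℝ) : ℂ) := by
  have h1 : ∀ i, G (if i = l then 1 else 0) (if i = j then 1 else 0) T (X i) =
      ((cf (if i = l then 1 else 0) (if i = j then 1 else 0) T (X i) * g T (X i) : ℝ) : ℂ) := by
    intro i
    refine G_eval _ _ ?_ ?_ T (X i) hT <;> split_ifs <;> norm_num
  simp only [h1]
  rw [← Complex.ofReal_prod]
  congr 1
  rw [Finset.prod_mul_distrib]
  have h2 : ∏ i, g T (X i) =
      ((Real.sqrt (4 * Real.pi * T))⁻¹) ^ d * Real.exp (-((∑ i, X i ^ 2) / (4 * T))) := by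
    unfold g
    rw [Finset.prod_mul_distrib, Finset.prod_const, Finset.card_univ, Fintype.card_fin,
      ← Real.exp_sum, Finset.sum_neg_distrib, Finset.sum_div]
  rw [h2]
  congr 1
  rcases eq_or_ne l j with rfl | hlj
  · have h3 : ∀ i, cf (if i = l then 1 else 0) (if i = l then 1 else 0) T (X i) =
        if i = l then (-(X l / (2 * T)) * (X l / (2 * T)) + 1 / (2 * T)) else 1 := by
      intro i
      by_cases hi : i = l
      · subst hi
        simp [cf]
      · simp [cf, hi]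
    simp only [h3, Finset.prod_ite_eq', Finset.mem_univ, if_true]
    ring
  · have h3 : ∀ i, cf (if i = l then 1 else 0) (if i = j then 1 else 0) T (X i) =
        (if i = l then (-(X l / (2 * T))) else 1) * (if i = j then (X j / (2 * T)) else 1) := by
      intro i
      by_cases hi : i = l
      · subst hi
        simp [cf, hlj]
      · by_cases hi2 : i = j
        · subst hi2
          simp [cf, hi]
        · simp [cf, hi, hi2]
    simp only [h3, Finset.prod_mul_distrib, Finset.prod_ite_eq', Finset.mem_univ, if_true,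
      if_neg hlj]
    ring

/-- the Gamma integral, inverted -/
lemma gamma_inv {s r : ℝ} (hs : 0 < s) (hr : 0 < r) :
    ∫ T in Ioi (0:ℝ), T ^ (-s - 1) * Real.exp (-(r / T)) = (1 / r) ^ s * Real.Gamma s := by
  rw [← Real.integral_rpow_mul_exp_neg_mul_Ioi hs hr,
    ← integral_comp_rpow_Ioi (fun t : ℝ => t ^ (s - 1) * Real.exp (-(r * t)))
      (p := -1) (by norm_num)]
  refine setIntegral_congr_fun measurableSet_Ioi fun T hT => ?_
  have hT0 : (0:ℝ) < T := hT
  simp only [smul_eq_mul, abs_neg, abs_one, one_mul]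
  rw [Real.rpow_neg_one, ← mul_assoc]
  congr 1
  rw [Real.inv_rpow hT0.le, ← Real.rpow_neg hT0.le, ← Real.rpow_add hT0]
  congr 1
  ring

lemma gamma_inv_integrable {s r : ℝ} (hs : 0 < s) (hr : 0 < r) :
    IntegrableOn (fun T : ℝ => T ^ (-s - 1) * Real.exp (-(r / T))) (Ioi 0) := by
  apply Integrable.of_integral_ne_zero
  rw [gamma_inv hs hr]
  have := Real.Gamma_pos_of_pos hs
  positivity

/-- the continuum integral -/
theorem cont_integral {d : ℕ} (hd : 1 ≤ d) (l j : Fin d) {X : Fin d → ℝ} (hX : X ≠ 0) :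
    ∫ T in Ioi (0:ℝ), (((if l = j then 1 / (2 * T) else 0) - X l * X j / (4 * T ^ 2)) *
        (((Real.sqrt (4 * Real.pi * T))⁻¹) ^ d * Real.exp (-((∑ i, X i ^ 2) / (4 * T))))) =
      T2h94.Dk d l j X := by
  set R : ℝ := ∑ i, X i ^ 2 with hR
  have hR0 : 0 < R := by
    obtain ⟨i, hi⟩ : ∃ i, X i ≠ 0 := by
      by_contra h
      push Not at h
      exact hX (funext h)
    have : X i ^ 2 ≤ R := Finset.single_le_sum (f := fun i => X i ^ 2)
      (fun i _ => sq_nonneg _) (Finset.mem_univ i)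
    have : 0 < X i ^ 2 := by positivity
    linarith
  have hd0 : (0:ℝ) < d := by exact_mod_cast hd
  have hs1 : (0:ℝ) < (d:ℝ) / 2 := by positivity
  have hs2 : (0:ℝ) < (d:ℝ) / 2 + 1 := by positivity
  have hr : (0:ℝ) < R / 4 := by positivity
  have hpi := Real.pi_pos
  have e : ∀ T ∈ Ioi (0:ℝ), (((if l = j then 1 / (2 * T) else 0) - X l * X j / (4 * T ^ 2)) *
        (((Real.sqrt (4 * Real.pi * T))⁻¹) ^ d * Real.exp (-(R / (4 * T))))) =
      ((4 * Real.pi) ^ (-((d:ℝ) / 2)) * (if l = j then 1 / 2 else 0)) *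
        (T ^ (-((d:ℝ) / 2) - 1) * Real.exp (-(R / 4 / T))) -
      ((4 * Real.pi) ^ (-((d:ℝ) / 2)) * (X l * X j / 4)) *
        (T ^ (-((d:ℝ) / 2 + 1) - 1) * Real.exp (-(R / 4 / T))) := by
    intro T hT
    have hT0 : (0:ℝ) < T := hT
    have h1 : ((Real.sqrt (4 * Real.pi * T))⁻¹) ^ d =
        (4 * Real.pi) ^ (-((d:ℝ) / 2)) * T ^ (-((d:ℝ) / 2)) := by
      rw [← Real.mul_rpow (by positivity) hT0.le, Real.rpow_neg (by positivity), inv_pow]
      congr 1
      rw [Real.sqrt_eq_rpow, ← Real.rpow_natCast, ← Real.rpow_mul (by positivity)]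
      congr 1
      ring
    have h2 : T ^ (-((d:ℝ) / 2) - 1) = T ^ (-((d:ℝ) / 2)) * T⁻¹ := by
      rw [Real.rpow_sub_one hT0.ne', div_eq_mul_inv]
    have h3 : T ^ (-((d:ℝ) / 2 + 1) - 1) = T ^ (-((d:ℝ) / 2)) * (T⁻¹) ^ 2 := by
      have : -((d:ℝ) / 2 + 1) - 1 = -((d:ℝ) / 2) - 2 := by ring
      rw [this, Real.rpow_sub hT0, Real.rpow_ofNat, inv_pow, div_eq_mul_inv]
    have h4 : R / (4 * T) = R / 4 / T := by rw [div_div]
    rw [h1, h2, h3, h4]
    have h5 : (if l = j then 1 / (2 * T) else 0) = (if l = j then 1 / 2 else 0) * T⁻¹ := by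
      split_ifs
      · field_simp
      · simp
    rw [h5]
    have h6 : X l * X j / (4 * T ^ 2) = X l * X j / 4 * (T⁻¹) ^ 2 := by
      field_simp
    rw [h6]
    ring
  rw [setIntegral_congr_fun measurableSet_Ioi e]
  rw [integral_sub ((gamma_inv_integrable hs1 hr).const_mul _)
    ((gamma_inv_integrable hs2 hr).const_mul _), integral_const_mul, integral_const_mul,
    gamma_inv hs1 hr, gamma_inv hs2 hr, Real.Gamma_add_one hs1.ne']
  unfold T2h94.Dk
  rw [← hR]
  have h7 : (1 / (R / 4)) ^ ((d:ℝ) / 2) = 4 ^ ((d:ℝ) / 2) * (R ^ ((d:ℝ) / 2))⁻¹ := by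
    rw [one_div, inv_div, Real.div_rpow (by norm_num) hR0.le, div_eq_mul_inv]
  have h8 : (4 * Real.pi) ^ (-((d:ℝ) / 2)) = (4 ^ ((d:ℝ) / 2))⁻¹ * (Real.pi ^ ((d:ℝ) / 2))⁻¹ := by
    rw [Real.mul_rpow (by norm_num) hpi.le, Real.rpow_neg (by norm_num), Real.rpow_neg hpi.le]
  have h9 : (1 / (R / 4)) ^ ((d:ℝ) / 2 + 1) = (1 / (R / 4)) ^ ((d:ℝ) / 2) * (4 / R) := by
    rw [Real.rpow_add_one (by positivity)]
    congr 1
    field_simp
  have h10 : R ^ ((d:ℝ) / 2 + 1) = R ^ ((d:ℝ) / 2) * R := Real.rpow_add_one hR0.ne' _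
  rw [h9, h7, h8, h10]
  have p1 : (0:ℝ) < 4 ^ ((d:ℝ) / 2) := by positivity
  have p2 : (0:ℝ) < Real.pi ^ ((d:ℝ) / 2) := by positivity
  have p3 : (0:ℝ) < R ^ ((d:ℝ) / 2) := by positivity
  split_ifs
  · field_simp
  · field_simp
    ring

end

end Pool.Agent.T2h85.KA
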