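import Pool.Agent.T2h85.KA1
import Pool.Agent.T2h94.KDef

/-!
# Fourier representation of the lattice kernels
-/

namespace Pool.Agent.T2h85.KA

open MeasureTheory Set Filter Topology

noncomputable section

/-- Lebesgue measure on the box -/
def bx (d : ℕ) : Measure (Fin d → ℝ) :=
  Measure.pi fun _ : Fin d => (volume : Measure ℝ).restrict (Ioc (-Real.pi) Real.pi)

instance (d : ℕ) : IsFiniteMeasure (bx d) := by
  unfold bx
  infer_instance

lemma bx_eq (d : ℕ) : bx d = (volume : Measure (Fin d → ℝ)).restrict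
    (Set.pi univ fun _ => Ioc (-Real.pi) Real.pi) := by
  unfold bx
  rw [← Measure.restrict_pi_pi]
  rfl

lemma bx_ae (d : ℕ) : ∀ᵐ θ ∂(bx d), ∀ i, |θ i| ≤ Real.pi := by
  rw [bx_eq, ae_restrict_iff' (MeasurableSet.univ_pi fun _ => measurableSet_Ioc)]
  refine Eventually.of_forall fun θ hθ i => ?_
  have := hθ i (mem_univ i)
  exact abs_le.2 ⟨this.1.le, this.2⟩

/-- continuous functions are integrable on the box -/
lemma cont_int {d : ℕ} {E : Type*} [NormedAddCommGroup E] {f : (Fin d → ℝ) → E}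
    (hf : Continuous f) : Integrable f (bx d) := by
  rw [bx_eq]
  have h1 : IntegrableOn f (Icc (fun _ => -Real.pi) (fun _ => Real.pi)) :=
    hf.integrableOn_Icc
  refine h1.mono_set ?_
  intro θ hθ
  exact ⟨fun i => (hθ i (mem_univ i)).1.le, fun i => (hθ i (mem_univ i)).2⟩

/-- the symbol of minus the Laplacian -/
def S {d : ℕ} (θ : Fin d → ℝ) : ℝ := ∑ i, 2 * (1 - Real.cos (θ i))

/-- the characteristic function of one step -/
def ph {d : ℕ} (θ : Fin d → ℝ) : ℝ := 1 - S θ / (4 * d)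

/-- the characters -/
def E {d : ℕ} (z : Fin d → ℤ) (θ : Fin d → ℝ) : ℂ := ∏ i, Complex.exp (Complex.I * (z i * θ i))

lemma S_cont {d : ℕ} : Continuous (S (d := d)) := by
  unfold S
  fun_prop

lemma ph_cont {d : ℕ} : Continuous (ph (d := d)) := by
  unfold ph
  have := S_cont (d := d)
  fun_prop

lemma E_cont {d : ℕ} (z : Fin d → ℤ) : Continuous (E z) := by
  unfold E
  fun_prop

lemma E_norm {d : ℕ} (z : Fin d → ℤ) (θ : Fin d → ℝ) : ‖E z θ‖ = 1 := by
  unfold E
  rw [norm_prod]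
  refine Finset.prod_eq_one fun i _ => ?_
  rw [Complex.norm_exp]
  have : Complex.I * ((z i : ℂ) * (θ i : ℂ)) = (((z i : ℝ) * θ i : ℝ) : ℂ) * Complex.I := by
    push_cast
    ring
  rw [this]
  simp only [Complex.mul_re, Complex.ofReal_re, Complex.I_re, mul_zero,
      Complex.ofReal_im, Complex.I_im, mul_one, sub_self, Real.exp_zero]

lemma E_add {d : ℕ} (z : Fin d → ℤ) (θ : Fin d → ℝ) (i : Fin d) :
    E (z + Pi.single i 1) θ = E z θ * Complex.exp (Complex.I * θ i) := by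
  unfold E
  have h : ∀ k, Complex.exp (Complex.I * (((z + Pi.single i (1:ℤ) : Fin d → ℤ) k : ℂ) * θ k)) =
      Complex.exp (Complex.I * (z k * θ k)) *
        (if k = i then Complex.exp (Complex.I * θ i) else 1) := by
    intro k
    by_cases hk : k = i
    · subst hk
      rw [if_pos rfl, ← Complex.exp_add]
      congr 1
      simp only [Pi.add_apply, Pi.single_eq_same]
      push_cast
      ring
    · rw [if_neg hk, mul_one]
      congr 3
      simp [Pi.single_eq_of_ne hk]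
  simp only [h, Finset.prod_mul_distrib, Finset.prod_ite_eq', Finset.mem_univ, if_true]

lemma E_sub {d : ℕ} (z : Fin d → ℤ) (θ : Fin d → ℝ) (i : Fin d) :
    E (z - Pi.single i 1) θ = E z θ * Complex.exp (-(Complex.I * θ i)) := by
  have h := E_add (z - Pi.single i 1) θ i
  rw [sub_add_cancel] at h
  rw [h, mul_assoc, ← Complex.exp_add, add_neg_cancel, Complex.exp_zero, mul_one]

lemma ph_eq {d : ℕ} (hd : 1 ≤ d) (θ : Fin d → ℝ) :
    ((ph θ : ℝ) : ℂ) = 1 / 2 + (1 / (4 * d) : ℂ) *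
      ∑ i, (Complex.exp (Complex.I * θ i) + Complex.exp (-(Complex.I * θ i))) := by
  have hd0 : (d : ℂ) ≠ 0 := by
    have : d ≠ 0 := by omega
    exact_mod_cast this
  have h : ∀ i, Complex.exp (Complex.I * θ i) + Complex.exp (-(Complex.I * θ i)) =
      2 * ((Real.cos (θ i) : ℝ) : ℂ) := by
    intro i
    rw [Complex.ofReal_cos, Complex.cos]
    rw [show (θ i : ℂ) * Complex.I = Complex.I * θ i by ring,
      show -(θ i : ℂ) * Complex.I = -(Complex.I * θ i) by ring]
    ring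
  simp only [h]
  unfold ph S
  push_cast
  simp only [mul_sub, mul_one, Finset.sum_sub_distrib, Finset.sum_const, Finset.card_univ,
    Fintype.card_fin, nsmul_eq_mul]
  field_simp
  ring

lemma int_exp (n : ℤ) :
    ∫ θ in (-Real.pi)..Real.pi, Complex.exp (Complex.I * (n * (θ : ℂ))) =
      if n = 0 then (2 * Real.pi : ℂ) else 0 := by
  split_ifs with h
  · subst h
    simp
    ring
  · have hn : (Complex.I * n : ℂ) ≠ 0 :=
      mul_ne_zero Complex.I_ne_zero (by exact_mod_cast h)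
    have h1 := integral_exp_mul_complex (a := -Real.pi) (b := Real.pi) hn
    have e : ∀ θ : ℝ, Complex.exp (Complex.I * (n * (θ : ℂ))) =
        Complex.exp (Complex.I * n * θ) := by
      intro θ
      ring_nf
    simp only [e]
    rw [h1]
    have h2 : Complex.exp (Complex.I * n * (Real.pi : ℝ)) =
        Complex.exp (Complex.I * n * ((-Real.pi : ℝ) : ℂ)) := by
      have : Complex.I * n * ((Real.pi : ℝ) : ℂ) = Complex.I * n * ((-Real.pi : ℝ) : ℂ) +
          n * (2 * Real.pi * Complex.I) := by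
        push_cast
        ring
      rw [this, Complex.exp_add, Complex.exp_int_mul_two_pi_mul_I, mul_one]
    rw [h2, sub_self, zero_div]

/-- normalisation -/
def nc (d : ℕ) : ℂ := (((2 * Real.pi)⁻¹ ^ d : ℝ) : ℂ)

/-- Fourier representation of the law of the walk -/
theorem pk_fourier {d : ℕ} (hd : 1 ≤ d) (k : ℕ) (z : Fin d → ℤ) :
    ((T2h94.pk d k z : ℝ) : ℂ) = nc d * ∫ θ, ((ph θ : ℝ) : ℂ) ^ k * E z θ ∂(bx d) := by
  induction k generalizing z with
  | zero =>
    have hle : -Real.pi ≤ Real.pi := by linarith [Real.pi_pos]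
    simp only [pow_zero, one_mul, T2h94.pk]
    unfold E bx
    rw [integral_fintype_prod_eq_prod
      (f := fun i (x : ℝ) => Complex.exp (Complex.I * ((z i : ℂ) * (x : ℂ))))]
    have h1 : ∀ i, ∫ x in Ioc (-Real.pi) Real.pi, Complex.exp (Complex.I * ((z i : ℂ) * (x : ℂ))) =
        if z i = 0 then (2 * Real.pi : ℂ) else 0 := by
      intro i
      rw [← intervalIntegral.integral_of_le hle, int_exp]
    simp only [h1]
    by_cases hz : z = 0
    · subst hz
      simp only [Pi.zero_apply, if_true, Finset.prod_const, Finset.card_univ, Fintype.card_fin]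
      unfold nc
      push_cast
      rw [← mul_pow, inv_mul_cancel₀, one_pow]
      have : (Real.pi : ℂ) ≠ 0 := by exact_mod_cast Real.pi_ne_zero
      simp [this]
    · rw [if_neg hz]
      obtain ⟨i, hi⟩ : ∃ i, z i ≠ 0 := by
        by_contra h
        push Not at h
        exact hz (funext h)
      rw [Finset.prod_eq_zero (Finset.mem_univ i) (by simp [hi])]
      simp
  | succ k ih =>
    have hi : ∀ w : Fin d → ℤ, Integrable (fun θ => ((ph θ : ℝ) : ℂ) ^ k * E w θ) (bx d) := by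
      intro w
      apply cont_int
      have := ph_cont (d := d)
      have := E_cont w
      fun_prop
    simp only [T2h94.pk]
    push_cast
    simp only [ih]
    have e : ∀ θ, ((ph θ : ℝ) : ℂ) ^ (k + 1) * E z θ =
        1 / 2 * (((ph θ : ℝ) : ℂ) ^ k * E z θ) + (1 / (4 * d) : ℂ) *
        ∑ i, (((ph θ : ℝ) : ℂ) ^ k * E (z + Pi.single i 1) θ +
          ((ph θ : ℝ) : ℂ) ^ k * E (z - Pi.single i 1) θ) := by
      intro θ
      have h2 : ∑ i, (((ph θ : ℝ) : ℂ) ^ k * E (z + Pi.single i 1) θ +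
          ((ph θ : ℝ) : ℂ) ^ k * E (z - Pi.single i 1) θ) = ((ph θ : ℝ) : ℂ) ^ k * E z θ *
          ∑ i, (Complex.exp (Complex.I * θ i) + Complex.exp (-(Complex.I * θ i))) := by
        rw [Finset.mul_sum]
        refine Finset.sum_congr rfl fun i _ => ?_
        rw [E_add, E_sub]
        ring
      rw [h2]
      have h3 := ph_eq hd θ
      calc ((ph θ : ℝ) : ℂ) ^ (k + 1) * E z θ =
          ((ph θ : ℝ) : ℂ) ^ k * E z θ * ((ph θ : ℝ) : ℂ) := by ring
        _ = ((ph θ : ℝ) : ℂ) ^ k * E z θ * (1 / 2 + (1 / (4 * d) : ℂ) *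
            ∑ i, (Complex.exp (Complex.I * θ i) + Complex.exp (-(Complex.I * θ i)))) := by
            nth_rw 2 [h3]
        _ = _ := by ring
    simp only [e]
    have hi2 : ∀ i : Fin d, Integrable (fun θ => (((ph θ : ℝ) : ℂ) ^ k * E (z + Pi.single i 1) θ +
          ((ph θ : ℝ) : ℂ) ^ k * E (z - Pi.single i 1) θ)) (bx d) :=
      fun i => (hi _).add (hi _)
    have hi3 : Integrable (fun θ => ∑ i, (((ph θ : ℝ) : ℂ) ^ k * E (z + Pi.single i 1) θ +
          ((ph θ : ℝ) : ℂ) ^ k * E (z - Pi.single i 1) θ)) (bx d) :=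
      integrable_finsetSum _ fun i _ => hi2 i
    have h5 : ∫ θ, (1 / 2 * (((ph θ : ℝ) : ℂ) ^ k * E z θ) + (1 / (4 * d) : ℂ) *
        ∑ i, (((ph θ : ℝ) : ℂ) ^ k * E (z + Pi.single i 1) θ +
          ((ph θ : ℝ) : ℂ) ^ k * E (z - Pi.single i 1) θ)) ∂(bx d) =
        (∫ θ, 1 / 2 * (((ph θ : ℝ) : ℂ) ^ k * E z θ) ∂(bx d)) + ∫ θ, (1 / (4 * d) : ℂ) *
        ∑ i, (((ph θ : ℝ) : ℂ) ^ k * E (z + Pi.single i 1) θ +
          ((ph θ : ℝ) : ℂ) ^ k * E (z - Pi.single i 1) θ) ∂(bx d) :=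
      integral_add ((hi z).const_mul _) (hi3.const_mul _)
    rw [h5, integral_const_mul, integral_const_mul, integral_finsetSum _ fun i _ => hi2 i]
    have h4 : ∀ i, ∫ θ, (((ph θ : ℝ) : ℂ) ^ k * E (z + Pi.single i 1) θ +
          ((ph θ : ℝ) : ℂ) ^ k * E (z - Pi.single i 1) θ) ∂(bx d) =
        (∫ θ, ((ph θ : ℝ) : ℂ) ^ k * E (z + Pi.single i 1) θ ∂(bx d)) +
        ∫ θ, ((ph θ : ℝ) : ℂ) ^ k * E (z - Pi.single i 1) θ ∂(bx d) :=
      fun i => integral_add (hi _) (hi _)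
    simp only [h4]
    simp only [← mul_add, ← Finset.mul_sum]
    ring

/-- the symbol of the second difference -/
def sg {d : ℕ} (l j : Fin d) (θ : Fin d → ℝ) : ℂ :=
  (Complex.exp (Complex.I * θ l) - 1) * (Complex.exp (-(Complex.I * θ j)) - 1)

lemma sg_cont {d : ℕ} (l j : Fin d) : Continuous (sg l j) := by
  unfold sg
  fun_prop

/-- Fourier representation of the truncated kernel -/
theorem hk_fourier {d : ℕ} (hd : 1 ≤ d) (K : ℕ) (l j : Fin d) (z : Fin d → ℤ) :
    ((T2h94.hk d K l j z : ℝ) : ℂ) = nc d * ∫ θ, ((1 / (4 * d) : ℂ) *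
      ∑ k ∈ Finset.range K, ((ph θ : ℝ) : ℂ) ^ k) * sg l j θ * E z θ ∂(bx d) := by
  have hi : ∀ (k : ℕ) (w : Fin d → ℤ),
      Integrable (fun θ => ((ph θ : ℝ) : ℂ) ^ k * E w θ) (bx d) := by
    intro k w
    apply cont_int
    have := ph_cont (d := d)
    have := E_cont w
    fun_prop
  unfold T2h94.hk
  push_cast
  simp only [pk_fourier hd]
  have e : ∀ θ, ((1 / (4 * d) : ℂ) * ∑ k ∈ Finset.range K, ((ph θ : ℝ) : ℂ) ^ k) * sg l j θ *
      E z θ = (1 / (4 * d) : ℂ) * ∑ k ∈ Finset.range K,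
        (((ph θ : ℝ) : ℂ) ^ k * E (z + Pi.single l 1 - Pi.single j 1) θ -
        ((ph θ : ℝ) : ℂ) ^ k * E (z + Pi.single l 1) θ -
        ((ph θ : ℝ) : ℂ) ^ k * E (z - Pi.single j 1) θ + ((ph θ : ℝ) : ℂ) ^ k * E z θ) := by
    intro θ
    rw [mul_assoc, mul_assoc, Finset.sum_mul]
    congr 1
    refine Finset.sum_congr rfl fun k _ => ?_
    rw [E_sub, E_sub, E_add]
    unfold sg
    ring
  simp only [e]
  have hi4 : ∀ k : ℕ, Integrable (fun θ =>
      (((ph θ : ℝ) : ℂ) ^ k * E (z + Pi.single l 1 - Pi.single j 1) θ -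
        ((ph θ : ℝ) : ℂ) ^ k * E (z + Pi.single l 1) θ -
        ((ph θ : ℝ) : ℂ) ^ k * E (z - Pi.single j 1) θ + ((ph θ : ℝ) : ℂ) ^ k * E z θ)) (bx d) :=
    fun k => (((hi k _).sub (hi k _)).sub (hi k _)).add (hi k _)
  rw [integral_const_mul, integral_finsetSum _ fun k _ => hi4 k]
  have h4 : ∀ k : ℕ, ∫ θ, (((ph θ : ℝ) : ℂ) ^ k * E (z + Pi.single l 1 - Pi.single j 1) θ -
        ((ph θ : ℝ) : ℂ) ^ k * E (z + Pi.single l 1) θ -
        ((ph θ : ℝ) : ℂ) ^ k * E (z - Pi.single j 1) θ + ((ph θ : ℝ) : ℂ) ^ k * E z θ) ∂(bx d) =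
      (∫ θ, ((ph θ : ℝ) : ℂ) ^ k * E (z + Pi.single l 1 - Pi.single j 1) θ ∂(bx d)) -
      (∫ θ, ((ph θ : ℝ) : ℂ) ^ k * E (z + Pi.single l 1) θ ∂(bx d)) -
      (∫ θ, ((ph θ : ℝ) : ℂ) ^ k * E (z - Pi.single j 1) θ ∂(bx d)) +
      ∫ θ, ((ph θ : ℝ) : ℂ) ^ k * E z θ ∂(bx d) := by
    intro k
    have i1 := hi k (z + Pi.single l 1 - Pi.single j 1)
    have i2 := hi k (z + Pi.single l 1)
    have i3 := hi k (z - Pi.single j 1)
    have i4 := hi k z
    have s1 := integral_add ((i1.sub i2).sub i3) i4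
    have s2 := integral_sub (i1.sub i2) i3
    have s3 := integral_sub i1 i2
    simp only [Pi.sub_apply] at s1 s2 s3
    rw [s1, s2, s3]
  simp only [h4, Finset.mul_sum]
  refine Finset.sum_congr rfl fun k _ => ?_
  ring

end

end Pool.Agent.T2h85.KA
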