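import Pool.Agent.T2h85.KA4

/-!
# The infinite time kernel and the remainder
-/

namespace Pool.Agent.T2h85.KA

open MeasureTheory Set Filter Topology

noncomputable section

lemma S_nonneg {d : ℕ} (θ : Fin d → ℝ) : 0 ≤ S θ := by
  unfold S
  refine Finset.sum_nonneg fun i _ => ?_
  have := Real.cos_le_one (θ i)
  linarith

lemma S_le {d : ℕ} (θ : Fin d → ℝ) : S θ ≤ 4 * d := by
  unfold S
  calc ∑ i, 2 * (1 - Real.cos (θ i)) ≤ ∑ _i : Fin d, (4:ℝ) := by
        refine Finset.sum_le_sum fun i _ => ?_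
        have := Real.neg_one_le_cos (θ i)
        linarith
    _ = 4 * d := by
        rw [Finset.sum_const, Finset.card_univ, Fintype.card_fin, nsmul_eq_mul]
        ring

lemma norm_exp_sub_sq (x : ℝ) : ‖Complex.exp (Complex.I * x) - 1‖ ^ 2 = 2 * (1 - Real.cos x) := by
  rw [Complex.norm_exp_I_mul_ofReal_sub_one, Real.norm_eq_abs, sq_abs]
  have h := Real.cos_sq' (x / 2)
  have h2 := Real.cos_two_mul (x / 2)
  rw [show 2 * (x / 2) = x by ring] at h2
  rw [h2]
  have h3 := Real.sin_sq_add_cos_sq (x / 2)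
  nlinarith

lemma norm_exp_neg_sub_sq (x : ℝ) :
    ‖Complex.exp (-(Complex.I * x)) - 1‖ ^ 2 = 2 * (1 - Real.cos x) := by
  have := norm_exp_sub_sq (-x)
  rw [Real.cos_neg] at this
  rw [← this]
  congr 4
  push_cast
  ring

lemma sg_norm {d : ℕ} (l j : Fin d) (θ : Fin d → ℝ) : ‖sg l j θ‖ ≤ S θ := by
  have hc : ∀ i, 0 ≤ 2 * (1 - Real.cos (θ i)) := fun i => by
    have := Real.cos_le_one (θ i)
    linarith
  have hl : 2 * (1 - Real.cos (θ l)) ≤ S θ :=
    Finset.single_le_sum (f := fun i => 2 * (1 - Real.cos (θ i))) (fun i _ => hc i)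
      (Finset.mem_univ l)
  have hj : 2 * (1 - Real.cos (θ j)) ≤ S θ :=
    Finset.single_le_sum (f := fun i => 2 * (1 - Real.cos (θ i))) (fun i _ => hc i)
      (Finset.mem_univ j)
  unfold sg
  rw [norm_mul]
  have h1 := norm_exp_sub_sq (θ l)
  have h2 := norm_exp_neg_sub_sq (θ j)
  have h3 := sq_nonneg (‖Complex.exp (Complex.I * θ l) - 1‖ -
    ‖Complex.exp (-(Complex.I * θ j)) - 1‖)
  nlinarith

/-- the kernel for infinite time -/
def hinf {d : ℕ} (l j : Fin d) (z : Fin d → ℤ) : ℂ :=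
  nc d * ∫ θ, (sg l j θ / (S θ : ℂ)) * E z θ ∂(bx d)

lemma ph_nonneg {d : ℕ} (θ : Fin d → ℝ) : 0 ≤ ph θ := by
  unfold ph
  have h1 := S_le θ
  have h2 := S_nonneg θ
  rcases Nat.eq_zero_or_pos d with hd | hd
  · subst hd
    simp
  · have : S θ / (4 * d) ≤ 1 := by
      rw [div_le_one (by positivity)]
      exact h1
    linarith

lemma geom_id {d : ℕ} (hd : 1 ≤ d) (K : ℕ) (l j : Fin d) (θ : Fin d → ℝ) :
    ((1 / (4 * d) : ℂ) * ∑ k ∈ Finset.range K, ((ph θ : ℝ) : ℂ) ^ k) * sg l j θ =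
      sg l j θ / (S θ : ℂ) - ((ph θ : ℝ) : ℂ) ^ K * (sg l j θ / (S θ : ℂ)) := by
  by_cases hS : S θ = 0
  · have : sg l j θ = 0 := by
      have := sg_norm l j θ
      rw [hS] at this
      exact norm_le_zero_iff.1 this
    rw [this]
    simp
  · have hd0 : (d : ℂ) ≠ 0 := by
      have : d ≠ 0 := by omega
      exact_mod_cast this
    have hS' : ((S θ : ℝ) : ℂ) ≠ 0 := by exact_mod_cast hS
    have h1 := mul_neg_geom_sum ((ph θ : ℝ) : ℂ) K
    have h2 : 1 - ((ph θ : ℝ) : ℂ) = (S θ : ℂ) / (4 * d) := by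
      unfold ph
      push_cast
      ring
    rw [h2] at h1
    have h3 : (∑ k ∈ Finset.range K, ((ph θ : ℝ) : ℂ) ^ k) =
        (1 - ((ph θ : ℝ) : ℂ) ^ K) * (4 * d / (S θ : ℂ)) := by
      rw [← h1]
      field_simp
    rw [h3]
    field_simp

lemma quot_norm {d : ℕ} (l j : Fin d) (θ : Fin d → ℝ) : ‖sg l j θ / (S θ : ℂ)‖ ≤ 1 := by
  rw [norm_div, Complex.norm_real, Real.norm_of_nonneg (S_nonneg θ)]
  exact div_le_one_of_le₀ (sg_norm l j θ) (S_nonneg θ)

lemma quot_meas {d : ℕ} (l j : Fin d) : Measurable fun θ : Fin d → ℝ => sg l j θ / (S θ : ℂ) := by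
  have h1 := (sg_cont l j).measurable
  have h2 : Measurable fun θ : Fin d → ℝ => (S θ : ℂ) :=
    (Complex.continuous_ofReal.comp S_cont).measurable
  exact h1.div h2

/-- Gaussian bound of the remainder integral -/
lemma rem_int {d : ℕ} (hd : 1 ≤ d) (K : ℕ) (hK : 1 ≤ K) :
    ∫ θ, ph θ ^ K ∂(bx d) ≤ (Real.sqrt (Real.pi / (K / (d * Real.pi ^ 2)))) ^ d := by
  have hd0 : (0:ℝ) < d := by exact_mod_cast hd
  have hpi := Real.pi_pos
  set c : ℝ := K / (d * Real.pi ^ 2) with hc
  have hK0 : (0:ℝ) < K := by exact_mod_cast hK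
  have hc0 : 0 < c := by positivity
  have h1 : ∀ᵐ θ ∂(bx d), ph θ ^ K ≤ ∏ i, Real.exp (-c * θ i ^ 2) := by
    filter_upwards [bx_ae d] with θ hθ
    have h2 : ph θ ≤ Real.exp (-(S θ / (4 * d))) := Real.one_sub_le_exp_neg _
    have h3 : ph θ ^ K ≤ Real.exp (-(S θ / (4 * d))) ^ K :=
      pow_le_pow_left₀ (ph_nonneg θ) h2 K
    refine h3.trans ?_
    rw [← Real.exp_nat_mul, ← Real.exp_sum]
    apply Real.exp_le_exp.2
    have h4 : ∑ i, 4 / Real.pi ^ 2 * θ i ^ 2 ≤ S θ := by
      unfold S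
      refine Finset.sum_le_sum fun i _ => ?_
      have := Real.cos_le_one_sub_mul_cos_sq (hθ i)
      have h5 : 4 / Real.pi ^ 2 * θ i ^ 2 = 2 * (2 / Real.pi ^ 2 * θ i ^ 2) := by ring
      rw [h5]
      linarith
    rw [← Finset.mul_sum] at h4 ⊢
    have h6 : c * ∑ i, θ i ^ 2 = (K / (4 * d)) * (4 / Real.pi ^ 2 * ∑ i, θ i ^ 2) := by
      rw [hc]
      field_simp
    have h7 : (K / (4 * d)) * (4 / Real.pi ^ 2 * ∑ i, θ i ^ 2) ≤ (K / (4 * d)) * S θ := by
      gcongr
    have h8 : (K:ℝ) * -(S θ / (4 * d)) = -((K / (4 * d)) * S θ) := by ring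
    rw [h8, neg_mul, h6]
    linarith
  calc ∫ θ, ph θ ^ K ∂(bx d) ≤ ∫ θ, ∏ i, Real.exp (-c * θ i ^ 2) ∂(bx d) := by
        refine integral_mono_ae (cont_int (ph_cont.pow K)) (cont_int (by fun_prop)) h1
    _ = ∏ i : Fin d, ∫ x in Ioc (-Real.pi) Real.pi, Real.exp (-c * x ^ 2) := by
        unfold bx
        rw [integral_fintype_prod_eq_prod (f := fun (_ : Fin d) (x : ℝ) => Real.exp (-c * x ^ 2))]
    _ ≤ ∏ _i : Fin d, Real.sqrt (Real.pi / c) := by
        refine Finset.prod_le_prod (fun i _ => ?_) (fun i _ => ?_)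
        · exact integral_nonneg fun x => (Real.exp_pos _).le
        · rw [← integral_gaussian c]
          exact setIntegral_le_integral (integrable_exp_neg_mul_sq hc0)
            (Eventually.of_forall fun x => (Real.exp_pos _).le)
    _ = _ := by
        rw [Finset.prod_const, Finset.card_univ, Fintype.card_fin]

/-- the remainder -/
theorem hk_sub_hinf {d : ℕ} (hd : 1 ≤ d) (K : ℕ) (hK : 1 ≤ K) (l j : Fin d) (z : Fin d → ℤ) :
    ‖((T2h94.hk d K l j z : ℝ) : ℂ) - hinf l j z‖ ≤
      (Real.sqrt (Real.pi / (K / (d * Real.pi ^ 2)))) ^ d := by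
  have hq := quot_meas l j
  have hE := (E_cont z).measurable
  have hph : Measurable fun θ : Fin d → ℝ => ((ph θ : ℝ) : ℂ) ^ K :=
    ((Complex.continuous_ofReal.comp ph_cont).pow K).measurable
  have i1 : Integrable (fun θ => (sg l j θ / (S θ : ℂ)) * E z θ) (bx d) := by
    refine Integrable.mono' (integrable_const (1:ℝ)) (hq.mul hE).aestronglyMeasurable
      (Eventually.of_forall fun θ => ?_)
    rw [norm_mul, E_norm, mul_one]
    exact quot_norm l j θ
  have i2 : Integrable (fun θ => ((ph θ : ℝ) : ℂ) ^ K * (sg l j θ / (S θ : ℂ)) * E z θ)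
      (bx d) := by
    have hb : Integrable (fun θ => ph θ ^ K) (bx d) := cont_int (ph_cont.pow K)
    refine Integrable.mono' hb ((hph.mul hq).mul hE).aestronglyMeasurable
      (Eventually.of_forall fun θ => ?_)
    rw [norm_mul, E_norm, mul_one, norm_mul, norm_pow, Complex.norm_real,
      Real.norm_of_nonneg (ph_nonneg θ)]
    exact mul_le_of_le_one_right (pow_nonneg (ph_nonneg θ) K) (quot_norm l j θ)
  have e : ∀ θ, ((1 / (4 * d) : ℂ) * ∑ k ∈ Finset.range K, ((ph θ : ℝ) : ℂ) ^ k) * sg l j θ *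
      E z θ = (sg l j θ / (S θ : ℂ)) * E z θ -
        ((ph θ : ℝ) : ℂ) ^ K * (sg l j θ / (S θ : ℂ)) * E z θ := by
    intro θ
    rw [geom_id hd K l j θ]
    ring
  rw [hk_fourier hd]
  simp only [e]
  rw [integral_sub i1 i2]
  unfold hinf
  rw [mul_sub, sub_sub_cancel_left, norm_neg, norm_mul]
  have hpi := Real.pi_gt_three
  have h1 : ‖nc d‖ ≤ 1 := by
    unfold nc
    rw [Complex.norm_real, Real.norm_of_nonneg (by positivity)]
    exact pow_le_one₀ (by positivity) (inv_le_one_of_one_le₀ (by linarith))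
  have h2 : ‖∫ θ, ((ph θ : ℝ) : ℂ) ^ K * (sg l j θ / (S θ : ℂ)) * E z θ ∂(bx d)‖ ≤
      ∫ θ, ph θ ^ K ∂(bx d) := by
    refine norm_integral_le_of_norm_le (cont_int (ph_cont.pow K)) (Eventually.of_forall fun θ => ?_)
    rw [norm_mul, E_norm, mul_one, norm_mul, norm_pow, Complex.norm_real,
      Real.norm_of_nonneg (ph_nonneg θ)]
    exact mul_le_of_le_one_right (pow_nonneg (ph_nonneg θ) K) (quot_norm l j θ)
  calc ‖nc d‖ * ‖∫ θ, ((ph θ : ℝ) : ℂ) ^ K * (sg l j θ / (S θ : ℂ)) * E z θ ∂(bx d)‖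
      ≤ 1 * ∫ θ, ph θ ^ K ∂(bx d) := by
        gcongr
    _ ≤ _ := by
        rw [one_mul]
        exact rem_int hd K hK

/-- the product of the one dimensional integrands -/
lemma prod_F {d : ℕ} (l j : Fin d) (t : ℝ) (z : Fin d → ℤ) (θ : Fin d → ℝ) :
    ∏ i, F (if i = l then 1 else 0) (if i = j then 1 else 0) t (z i) (θ i) =
      sg l j θ * ((Real.exp (-(S θ * t)) : ℝ) : ℂ) * E z θ := by
  unfold F
  rw [Finset.prod_mul_distrib, Finset.prod_mul_distrib, Finset.prod_mul_distrib]
  have h1 : ∏ i, (Complex.exp (Complex.I * θ i) - 1) ^ (if i = l then 1 else 0) =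
      Complex.exp (Complex.I * θ l) - 1 := by
    have : ∀ i, (Complex.exp (Complex.I * θ i) - 1) ^ (if i = l then 1 else 0) =
        if i = l then Complex.exp (Complex.I * θ l) - 1 else 1 := by
      intro i
      by_cases hi : i = l
      · subst hi
        simp
      · simp [hi]
    simp only [this, Finset.prod_ite_eq', Finset.mem_univ, if_true]
  have h2 : ∏ i, (Complex.exp (-(Complex.I * θ i)) - 1) ^ (if i = j then 1 else 0) =
      Complex.exp (-(Complex.I * θ j)) - 1 := by
    have : ∀ i, (Complex.exp (-(Complex.I * θ i)) - 1) ^ (if i = j then 1 else 0) =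
        if i = j then Complex.exp (-(Complex.I * θ j)) - 1 else 1 := by
      intro i
      by_cases hi : i = j
      · subst hi
        simp
      · simp [hi]
    simp only [this, Finset.prod_ite_eq', Finset.mem_univ, if_true]
  have h3 : ∏ i, Complex.exp (-(2 * t * (1 - Complex.cos (θ i)))) =
      ((Real.exp (-(S θ * t)) : ℝ) : ℂ) := by
    rw [← Complex.exp_sum, Complex.ofReal_exp]
    congr 1
    unfold S
    push_cast
    rw [Finset.sum_mul, ← Finset.sum_neg_distrib]
    refine Finset.sum_congr rfl fun i _ => ?_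
    ring
  rw [h1, h2, h3]
  rfl

/-- the time integral -/
lemma time_int {s : ℝ} (hs : 0 < s) :
    ∫ t in Ioi (0:ℝ), Real.exp (-(s * t)) = 1 / s := by
  have h := integral_exp_mul_Ioi (a := -s) (by linarith) 0
  have e : ∀ t : ℝ, Real.exp (-(s * t)) = Real.exp (-s * t) := fun t => by rw [neg_mul]
  simp only [e, h]
  simp

lemma time_integrable {s : ℝ} (hs : 0 < s) :
    IntegrableOn (fun t : ℝ => Real.exp (-(s * t))) (Ioi 0) := by
  apply Integrable.of_integral_ne_zero
  rw [time_int hs]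
  positivity

/-- the heat kernel representation -/
theorem hinf_eq {d : ℕ} (l j : Fin d) (z : Fin d → ℤ) :
    hinf l j z = ∫ t in Ioi (0:ℝ),
      ∏ i, Q (if i = l then 1 else 0) (if i = j then 1 else 0) t (z i) := by
  have hle : -Real.pi ≤ Real.pi := by linarith [Real.pi_pos]
  set f : ℝ → (Fin d → ℝ) → ℂ := fun t θ =>
    sg l j θ * ((Real.exp (-(S θ * t)) : ℝ) : ℂ) * E z θ with hf
  have h1 : ∀ t, ∏ i, Q (if i = l then 1 else 0) (if i = j then 1 else 0) t (z i) =
      nc d * ∫ θ, f t θ ∂(bx d) := by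
    intro t
    unfold Q
    rw [Finset.prod_mul_distrib, Finset.prod_const, Finset.card_univ, Fintype.card_fin]
    unfold nc
    rw [Complex.ofReal_pow]
    congr 1
    simp only [hf, ← prod_F]
    unfold bx
    rw [integral_fintype_prod_eq_prod (f := fun (i : Fin d) (x : ℝ) =>
      F (if i = l then 1 else 0) (if i = j then 1 else 0) t (z i) (x : ℂ))]
    refine Finset.prod_congr rfl fun i _ => ?_
    rw [intervalIntegral.integral_of_le hle]
  simp only [h1]
  rw [integral_const_mul]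
  unfold hinf
  congr 1
  have hmeas : AEStronglyMeasurable (Function.uncurry f)
      (((volume : Measure ℝ).restrict (Ioi 0)).prod (bx d)) := by
    apply Continuous.aestronglyMeasurable
    have c1 := sg_cont l j
    have c2 := S_cont (d := d)
    have c3 := E_cont z
    simp only [hf, Function.uncurry_def]
    fun_prop
  have hfn : ∀ t θ, ‖f t θ‖ = ‖sg l j θ‖ * Real.exp (-(S θ * t)) := by
    intro t θ
    simp only [hf]
    rw [norm_mul, norm_mul, E_norm, mul_one, Complex.norm_real, Real.norm_of_nonneg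
      (Real.exp_pos _).le]
  have hsg0 : ∀ θ : Fin d → ℝ, S θ = 0 → sg l j θ = 0 := by
    intro θ h
    have := sg_norm l j θ
    rw [h] at this
    exact norm_le_zero_iff.1 this
  have hint : Integrable (Function.uncurry f)
      (((volume : Measure ℝ).restrict (Ioi 0)).prod (bx d)) := by
    rw [integrable_prod_iff' hmeas]
    constructor
    · refine Eventually.of_forall fun θ => ?_
      simp only [Function.uncurry_apply_pair]
      rcases (S_nonneg θ).eq_or_lt with h | h
      · have : ∀ t, f t θ = 0 := fun t => by simp [hf, hsg0 θ h.symm]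
        simp only [this]
        exact integrable_zero _ _ _
      · simp only [hf]
        exact (((time_integrable h).ofReal (𝕜 := ℂ)).const_mul _).mul_const _
    · simp only [Function.uncurry_apply_pair, hfn]
      have e : ∀ θ, ∫ t in Ioi (0:ℝ), ‖sg l j θ‖ * Real.exp (-(S θ * t)) =
          ‖sg l j θ / (S θ : ℂ)‖ := by
        intro θ
        rw [norm_div, Complex.norm_real, Real.norm_of_nonneg (S_nonneg θ)]
        rcases (S_nonneg θ).eq_or_lt with h | h
        · simp [hsg0 θ h.symm]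
        · rw [integral_const_mul, time_int h]
          ring
      simp only [e]
      refine Integrable.mono' (integrable_const (1:ℝ))
        (quot_meas l j).norm.aestronglyMeasurable (Eventually.of_forall fun θ => ?_)
      rw [norm_norm]
      exact quot_norm l j θ
  rw [integral_integral_swap hint]
  refine integral_congr_ae (Eventually.of_forall fun θ => ?_)
  simp only [hf]
  rw [integral_mul_const, integral_const_mul]
  congr 1
  rcases (S_nonneg θ).eq_or_lt with h | h
  · simp [hsg0 θ h.symm]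
  · have h5 : ∫ t in Ioi (0:ℝ), ((Real.exp (-(S θ * t)) : ℝ) : ℂ) = ((1 / S θ : ℝ) : ℂ) := by
      rw [integral_complex_ofReal, time_int h]
    rw [h5]
    push_cast
    ring

end

end Pool.Agent.T2h85.KA
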