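import Pool.Agent.T2h85.KA3
import Pool.Agent.T2h85.KA5

/-!
# The scaling limit of the lattice kernel
-/

namespace Pool.Agent.T2h85.KA

open MeasureTheory Set Filter Topology

noncomputable section

lemma Q_continuous_t (p m : ℕ) (n : ℤ) : Continuous fun t : ℝ => Q p m t n := by
  unfold Q
  refine Continuous.mul continuous_const ?_
  apply intervalIntegral.continuous_parametric_intervalIntegral_of_continuous'
  unfold F Function.uncurry
  fun_prop

/-- the scaled product -/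
def PS {d : ℕ} (l j : Fin d) (a : ℝ) (z : Fin d → ℤ) (T : ℝ) : ℂ :=
  ∏ i, ((((a)⁻¹ ^ ((if i = l then 1 else 0) + (if i = j then 1 else 0) + 1) : ℝ) : ℂ) *
    Q (if i = l then 1 else 0) (if i = j then 1 else 0) (T / a ^ 2) (z i))

lemma sum_exp {d : ℕ} (l j : Fin d) :
    ∑ i : Fin d, ((if i = l then 1 else 0) + (if i = j then 1 else 0) + 1) = d + 2 := by
  rw [Finset.sum_add_distrib, Finset.sum_add_distrib]
  simp
  omega

lemma PS_eq {d : ℕ} (l j : Fin d) (a : ℝ) (z : Fin d → ℤ) (T : ℝ) :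
    PS l j a z T = (((a)⁻¹ ^ (d + 2) : ℝ) : ℂ) *
      ∏ i, Q (if i = l then 1 else 0) (if i = j then 1 else 0) (T / a ^ 2) (z i) := by
  unfold PS
  rw [Finset.prod_mul_distrib, ← Complex.ofReal_prod, Finset.prod_pow_eq_pow_sum, sum_exp]

/-- scaling of the infinite time kernel -/
theorem hinf_scaled {d : ℕ} (l j : Fin d) (z : Fin d → ℤ) {a : ℝ} (ha : 0 < a) :
    (((a ^ d)⁻¹ : ℝ) : ℂ) * hinf l j z = ∫ T in Ioi (0:ℝ), PS l j a z T := by
  rw [hinf_eq]
  have hb : 0 < (a ^ 2)⁻¹ := by positivity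
  have h := integral_comp_mul_left_Ioi' (fun t : ℝ => ∏ i, Q (if i = l then 1 else 0)
    (if i = j then 1 else 0) t (z i)) 0 hb
  rw [mul_zero] at h
  rw [← h, Complex.real_smul]
  simp only [PS_eq]
  rw [integral_const_mul, ← mul_assoc, ← Complex.ofReal_mul]
  have e1 : (a ^ d)⁻¹ * (a ^ 2)⁻¹ = a⁻¹ ^ (d + 2) := by
    rw [inv_pow, pow_add, mul_inv]
  rw [e1]
  congr 1
  refine setIntegral_congr_fun measurableSet_Ioi fun T _ => ?_
  have e2 : (a ^ 2)⁻¹ * T = T / a ^ 2 := by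
    rw [div_eq_mul_inv, mul_comm]
  simp only [e2]

/-- elementary domination -/
lemma dom_aux (n : ℕ) (hn : 2 ≤ n) {c : ℝ} (hc : 0 < c) {y T : ℝ} (hy : 0 < y) (hT : 0 < T)
    (hyT : T * y ^ 2 ≤ 1) :
    y ^ (n + 2) * Real.exp (-(c * y)) ≤
      (((n + 2).factorial : ℝ) / c ^ (n + 2) + ((n - 2).factorial : ℝ) / c ^ (n - 2)) *
        (1 + T ^ 2)⁻¹ := by
  rw [← div_eq_mul_inv, le_div_iff₀ (by positivity)]
  have key : ∀ k : ℕ, y ^ k * Real.exp (-(c * y)) ≤ (k.factorial : ℝ) / c ^ k := by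
    intro k
    have h := Real.pow_div_factorial_le_exp (x := c * y) (by positivity) k
    rw [div_le_iff₀ (by positivity), mul_pow] at h
    rw [Real.exp_neg, le_div_iff₀ (by positivity), ← div_eq_mul_inv, div_mul_eq_mul_div,
      div_le_iff₀ (Real.exp_pos _)]
    linarith
  have h1 : T ^ 2 * y ^ 4 ≤ 1 := by
    have : T ^ 2 * y ^ 4 = (T * y ^ 2) ^ 2 := by ring
    rw [this]
    exact pow_le_one₀ (by positivity) hyT
  have h2 : y ^ (n + 2) = y ^ (n - 2) * y ^ 4 := by
    rw [← pow_add]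
    congr 1
    omega
  have h3 : y ^ (n + 2) * T ^ 2 ≤ y ^ (n - 2) := by
    rw [h2]
    calc y ^ (n - 2) * y ^ 4 * T ^ 2 = y ^ (n - 2) * (T ^ 2 * y ^ 4) := by ring
      _ ≤ y ^ (n - 2) * 1 := by gcongr
      _ = _ := mul_one _
  calc y ^ (n + 2) * Real.exp (-(c * y)) * (1 + T ^ 2)
      = y ^ (n + 2) * Real.exp (-(c * y)) + y ^ (n + 2) * T ^ 2 * Real.exp (-(c * y)) := by ring
    _ ≤ y ^ (n + 2) * Real.exp (-(c * y)) + y ^ (n - 2) * Real.exp (-(c * y)) := by gcongr
    _ ≤ _ := add_le_add (key _) (key _)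

/-- the uniform bound of the scaled product -/
theorem PS_bound {d : ℕ} (hd : 2 ≤ d) (l j : Fin d) {a : ℝ} (ha : 0 < a) (z : Fin d → ℤ)
    {T : ℝ} (hT : 0 < T) {c : ℝ} (hc : 0 < c) (i0 : Fin d) (hz : c ≤ |a * (z i0 : ℝ)|) :
    ‖PS l j a z T‖ ≤
      (∏ i : Fin d, QC ((if i = l then 1 else 0) + (if i = j then 1 else 0))) *
      ((((d + 2).factorial : ℝ) / c ^ (d + 2) + ((d - 2).factorial : ℝ) / c ^ (d - 2)) *
        (1 + T ^ 2)⁻¹) := by
  set e := et (T / a ^ 2) with he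
  have he0 : 0 < e := et_pos _
  set y := e / a with hy
  have hy0 : 0 < y := by positivity
  have hyT : T * y ^ 2 ≤ 1 := by
    rw [hy, div_pow, he, et_sq]
    have hM : (0:ℝ) < max 1 (T / a ^ 2) := lt_max_of_lt_left one_pos
    have h1 : T / a ^ 2 * (max 1 (T / a ^ 2))⁻¹ ≤ 1 := by
      rw [← div_eq_mul_inv, div_le_one hM]
      exact le_max_right _ _
    calc T * ((max 1 (T / a ^ 2))⁻¹ / a ^ 2) = T / a ^ 2 * (max 1 (T / a ^ 2))⁻¹ := by ring
      _ ≤ 1 := h1
  have h1 : ‖PS l j a z T‖ ≤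
      ∏ i : Fin d, (QC ((if i = l then 1 else 0) + (if i = j then 1 else 0)) *
        (y ^ ((if i = l then 1 else 0) + (if i = j then 1 else 0) + 1) *
          Real.exp (-(|(z i : ℝ)| * e)))) := by
    unfold PS
    rw [norm_prod]
    refine Finset.prod_le_prod (fun i _ => norm_nonneg _) fun i _ => ?_
    rw [norm_mul, Complex.norm_real, Real.norm_of_nonneg (by positivity)]
    have h2 := Q_bound (if i = l then 1 else 0) (if i = j then 1 else 0) (T / a ^ 2)
      (by positivity) (z i)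
    rw [← he] at h2
    calc a⁻¹ ^ ((if i = l then 1 else 0) + (if i = j then 1 else 0) + 1) *
        ‖Q (if i = l then 1 else 0) (if i = j then 1 else 0) (T / a ^ 2) (z i)‖
        ≤ a⁻¹ ^ ((if i = l then 1 else 0) + (if i = j then 1 else 0) + 1) *
        (QC ((if i = l then 1 else 0) + (if i = j then 1 else 0)) *
          e ^ ((if i = l then 1 else 0) + (if i = j then 1 else 0) + 1) *
          Real.exp (-(|(z i : ℝ)| * e))) := by gcongr
      _ = _ := by
        rw [hy, div_eq_mul_inv, mul_pow]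
        ring
  refine h1.trans ?_
  rw [Finset.prod_mul_distrib, Finset.prod_mul_distrib, Finset.prod_pow_eq_pow_sum, sum_exp,
    ← Real.exp_sum]
  have hQ : 0 ≤ ∏ i : Fin d, QC ((if i = l then 1 else 0) + (if i = j then 1 else 0)) :=
    Finset.prod_nonneg fun i _ => QC_nonneg _
  refine mul_le_mul_of_nonneg_left ?_ hQ
  refine le_trans ?_ (dom_aux d hd hc hy0 hT hyT)
  refine mul_le_mul_of_nonneg_left ?_ (by positivity)
  apply Real.exp_le_exp.2
  rw [Finset.sum_neg_distrib]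
  apply neg_le_neg
  have h3 : |(z i0 : ℝ)| * e ≤ ∑ i, |(z i : ℝ)| * e :=
    Finset.single_le_sum (f := fun i => |(z i : ℝ)| * e) (fun i _ => by positivity)
      (Finset.mem_univ i0)
  refine le_trans ?_ h3
  rw [hy]
  have h4 : |(z i0 : ℝ)| * e = |a * (z i0 : ℝ)| * (e / a) := by
    rw [abs_mul, abs_of_pos ha]
    field_simp
  rw [h4]
  gcongr

/-- the limit of the infinite time kernel -/
theorem hinf_limit {d : ℕ} (hd : 2 ≤ d) (l j : Fin d) {X : Fin d → ℝ} (hX : X ≠ 0)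
    {a : ℕ → ℝ} (ha : ∀ i, 0 < a i) (ha0 : Tendsto a atTop (𝓝 0))
    {z : ℕ → Fin d → ℤ} (hz : ∀ s, Tendsto (fun i => a i * (z i s : ℝ)) atTop (𝓝 (X s))) :
    Tendsto (fun i => ((((a i) ^ d)⁻¹ : ℝ) : ℂ) * hinf l j (z i)) atTop
      (𝓝 ((T2h94.Dk d l j X : ℝ) : ℂ)) := by
  have h0 : ((T2h94.Dk d l j X : ℝ) : ℂ) = ∫ T in Ioi (0:ℝ),
      ∏ i, G (if i = l then 1 else 0) (if i = j then 1 else 0) T (X i) := by
    rw [← cont_integral (by omega) l j hX, ← integral_complex_ofReal]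
    refine setIntegral_congr_fun measurableSet_Ioi fun T hT => ?_
    exact (prod_G l j X T hT).symm
  rw [h0]
  simp only [hinf_scaled l j _ (ha _)]
  obtain ⟨i0, hi0⟩ : ∃ i, X i ≠ 0 := by
    by_contra h
    push Not at h
    exact hX (funext h)
  set c : ℝ := |X i0| / 2 with hc
  have hXp : 0 < |X i0| := abs_pos.2 hi0
  have hc0 : 0 < c := by positivity
  refine tendsto_integral_filter_of_dominated_convergence
    (fun T => (∏ i : Fin d, QC ((if i = l then 1 else 0) + (if i = j then 1 else 0))) *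
      ((((d + 2).factorial : ℝ) / c ^ (d + 2) + ((d - 2).factorial : ℝ) / c ^ (d - 2)) *
        (1 + T ^ 2)⁻¹)) ?_ ?_ ?_ ?_
  · refine Eventually.of_forall fun i => ?_
    apply Continuous.aestronglyMeasurable
    unfold PS
    refine continuous_finsetProd _ fun s _ => ?_
    refine Continuous.mul continuous_const ?_
    exact (Q_continuous_t _ _ _).comp (continuous_id.div_const _)
  · have h1 : Tendsto (fun i => |a i * (z i i0 : ℝ)|) atTop (𝓝 |X i0|) := (hz i0).abs
    have h2 : ∀ᶠ i in atTop, c < |a i * (z i i0 : ℝ)| :=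
      h1.eventually (lt_mem_nhds (by linarith))
    filter_upwards [h2] with i hi
    refine (ae_restrict_iff' measurableSet_Ioi).2 (Eventually.of_forall fun T hT => ?_)
    exact PS_bound hd l j (ha i) (z i) hT hc0 i0 hi.le
  · exact ((integrable_inv_one_add_sq.const_mul _).const_mul _).integrableOn
  · refine (ae_restrict_iff' measurableSet_Ioi).2 (Eventually.of_forall fun T hT => ?_)
    unfold PS
    refine tendsto_finsetProd _ fun s _ => ?_
    exact Q_tendsto _ _ T (X s) hT ha ha0 (hz s)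

/-- **The scaling limit of the lattice kernel.** -/
theorem kernel_limit {d : ℕ} (hd : 3 ≤ d) (l j : Fin d) {X : Fin d → ℝ} (hX : X ≠ 0)
    {a : ℕ → ℝ} (ha : ∀ i, 0 < a i) (ha0 : Tendsto a atTop (𝓝 0))
    {K : ℕ → ℕ} (hK : Tendsto (fun i => (K i : ℝ) * a i ^ 2) atTop atTop)
    {z : ℕ → Fin d → ℤ} (hz : ∀ s, Tendsto (fun i => a i * (z i s : ℝ)) atTop (𝓝 (X s))) :
    Tendsto (fun i => (a i ^ d)⁻¹ * T2h94.hk d (K i) l j (z i)) atTop
      (𝓝 (T2h94.Dk d l j X)) := by
  have hd0 : (0:ℝ) < d := by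
    have : 0 < d := by omega
    exact_mod_cast this
  have hpi := Real.pi_pos
  have hinf' := hinf_limit (by omega) l j hX ha ha0 hz
  -- the remainder
  have hrem : Tendsto (fun i => ((((a i) ^ d)⁻¹ : ℝ) : ℂ) *
      (((T2h94.hk d (K i) l j (z i) : ℝ) : ℂ) - hinf l j (z i))) atTop (𝓝 0) := by
    have hlim : Tendsto (fun i => (Real.sqrt (Real.pi ^ 3 * d / ((K i : ℝ) * a i ^ 2))) ^ d)
        atTop (𝓝 0) := by
      have h1 : Tendsto (fun i => Real.pi ^ 3 * d / ((K i : ℝ) * a i ^ 2)) atTop (𝓝 0) :=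
        hK.const_div_atTop _
      have h2 := (Real.continuous_sqrt.tendsto 0).comp h1
      rw [Real.sqrt_zero] at h2
      have h3 := h2.pow d
      rwa [zero_pow (by omega)] at h3
    refine squeeze_zero_norm' ?_ hlim
    have hK1 : ∀ᶠ i in atTop, 1 ≤ (K i : ℝ) * a i ^ 2 := hK.eventually_ge_atTop 1
    filter_upwards [hK1] with i hi
    have hai := ha i
    have hKi : 1 ≤ K i := by
      by_contra h
      have : K i = 0 := by omega
      rw [this] at hi
      norm_num at hi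
    have hKi0 : (0:ℝ) < K i := by exact_mod_cast hKi
    rw [norm_mul, Complex.norm_real, Real.norm_of_nonneg (by positivity)]
    have h4 := hk_sub_hinf (by omega) (K i) hKi l j (z i)
    calc ((a i) ^ d)⁻¹ * ‖((T2h94.hk d (K i) l j (z i) : ℝ) : ℂ) - hinf l j (z i)‖
        ≤ ((a i) ^ d)⁻¹ * (Real.sqrt (Real.pi / (K i / (d * Real.pi ^ 2)))) ^ d := by gcongr
      _ = (Real.sqrt (Real.pi ^ 3 * d / ((K i : ℝ) * a i ^ 2))) ^ d := by
        rw [← inv_pow, ← mul_pow]
        congr 1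
        have h5 : Real.pi ^ 3 * d / ((K i : ℝ) * a i ^ 2) =
            (Real.pi / (K i / (d * Real.pi ^ 2))) / a i ^ 2 := by
          field_simp
        have h6 : Real.sqrt ((Real.pi / (K i / (d * Real.pi ^ 2))) / a i ^ 2) =
            Real.sqrt (Real.pi / (K i / (d * Real.pi ^ 2))) / Real.sqrt (a i ^ 2) :=
          Real.sqrt_div (by positivity) _
        rw [h5, h6, Real.sqrt_sq hai.le]
        ring
  have hsum := hinf'.add hrem
  rw [add_zero] at hsum
  have hre := (Complex.continuous_re.tendsto _).comp hsum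
  rw [Complex.ofReal_re] at hre
  refine hre.congr fun i => ?_
  simp only [Function.comp]
  rw [← mul_add]
  have h6 : hinf l j (z i) + (((T2h94.hk d (K i) l j (z i) : ℝ) : ℂ) - hinf l j (z i)) =
      ((T2h94.hk d (K i) l j (z i) : ℝ) : ℂ) := by ring
  rw [h6, ← Complex.ofReal_mul, Complex.ofReal_re]

end

end Pool.Agent.T2h85.KA
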