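import Pool.Agent.Z72.KB.KB3
import Pool.Agent.T2h94.KDef3

/-!
# Iterated differences of the lattice Green function: Fourier representation and heat traces
-/

namespace Pool.Agent.T2h85.KC

open MeasureTheory Set Filter Topology
open Pool.Agent.T2h85.KA Pool.Agent.Z72.KB
open Pool.Agent.T2h94 (dw sgw)

noncomputable section

/-- the symbol of an iterated difference -/
def sw {d : ℕ} : List (Fin d × Bool) → (Fin d → ℝ) → ℂ
  | [], _ => 1
  | (l, true) :: w, θ => (Complex.exp (Complex.I * θ l) - 1) * sw w θ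
  | (l, false) :: w, θ => (Complex.exp (-(Complex.I * θ l)) - 1) * sw w θ

/-- the number of forward differences -/
def ep {d : ℕ} : List (Fin d × Bool) → Fin d → ℕ
  | [], _ => 0
  | (l, true) :: w, i => ep w i + (if i = l then 1 else 0)
  | (_, false) :: w, i => ep w i

/-- the number of backward differences -/
def em {d : ℕ} : List (Fin d × Bool) → Fin d → ℕ
  | [], _ => 0
  | (_, true) :: w, i => em w i
  | (l, false) :: w, i => em w i + (if i = l then 1 else 0)

lemma sum_epm {d : ℕ} (w : List (Fin d × Bool)) : ∑ i, (ep w i + em w i) = w.length := by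
  induction w with
  | nil => simp [ep, em]
  | cons x w ih =>
    obtain ⟨l, b⟩ := x
    cases b
    · simp only [ep, em, List.length_cons, ← ih]
      have : ∀ i, ep w i + (em w i + (if i = l then 1 else 0)) =
          (ep w i + em w i) + (if i = l then 1 else 0) := fun i => by ring
      simp only [this]
      rw [Finset.sum_add_distrib (f := fun i => ep w i + em w i)]
      simp
    · simp only [ep, em, List.length_cons, ← ih]
      have : ∀ i, (ep w i + (if i = l then 1 else 0)) + em w i =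
          (ep w i + em w i) + (if i = l then 1 else 0) := fun i => by ring
      simp only [this]
      rw [Finset.sum_add_distrib (f := fun i => ep w i + em w i)]
      simp

lemma sum_exps {d : ℕ} (w : List (Fin d × Bool)) :
    ∑ i, (ep w i + em w i + 1) = d + w.length := by
  rw [Finset.sum_add_distrib, sum_epm]
  simp
  omega

lemma sw_cont {d : ℕ} (w : List (Fin d × Bool)) : Continuous (sw w) := by
  induction w with
  | nil => exact continuous_const
  | cons x w ih =>
    obtain ⟨l, b⟩ := x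
    cases b
    · show Continuous fun θ => (Complex.exp (-(Complex.I * θ l)) - 1) * sw w θ
      fun_prop
    · show Continuous fun θ => (Complex.exp (Complex.I * θ l) - 1) * sw w θ
      fun_prop

lemma sw_eq {d : ℕ} (w : List (Fin d × Bool)) (θ : Fin d → ℝ) :
    sw w θ = (∏ i, (Complex.exp (Complex.I * θ i) - 1) ^ ep w i) *
      ∏ i, (Complex.exp (-(Complex.I * θ i)) - 1) ^ em w i := by
  induction w with
  | nil => simp [sw, ep, em]
  | cons x w ih =>
    obtain ⟨l, b⟩ := x
    cases b
    · simp only [sw, ep, em, ih]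
      have h : ∏ i, (Complex.exp (-(Complex.I * θ i)) - 1) ^ (em w i + (if i = l then 1 else 0)) =
          (∏ i, (Complex.exp (-(Complex.I * θ i)) - 1) ^ em w i) *
          (Complex.exp (-(Complex.I * θ l)) - 1) := by
        simp only [pow_add]
        rw [Finset.prod_mul_distrib]
        congr 1
        simp [pow_ite]
      rw [h]
      ring
    · simp only [sw, ep, em, ih]
      have h : ∏ i, (Complex.exp (Complex.I * θ i) - 1) ^ (ep w i + (if i = l then 1 else 0)) =
          (∏ i, (Complex.exp (Complex.I * θ i) - 1) ^ ep w i) *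
          (Complex.exp (Complex.I * θ l) - 1) := by
        simp only [pow_add]
        rw [Finset.prod_mul_distrib]
        congr 1
        simp [pow_ite]
      rw [h]
      ring

/-- Fourier representation of an iterated difference -/
theorem dw_fourier {d : ℕ} {h : (Fin d → ℤ) → ℝ} {φ : (Fin d → ℝ) → ℂ} (hφ : Continuous φ)
    (hh : ∀ z, ((h z : ℝ) : ℂ) = nc d * ∫ θ, φ θ * E z θ ∂(bx d)) (w : List (Fin d × Bool))
    (z : Fin d → ℤ) :
    ((dw h w z : ℝ) : ℂ) = nc d * ∫ θ, φ θ * sw w θ * E z θ ∂(bx d) := by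
  have hi : ∀ (w : List (Fin d × Bool)) (z : Fin d → ℤ),
      Integrable (fun θ => φ θ * sw w θ * E z θ) (bx d) := by
    intro w z
    apply cont_int
    have := sw_cont w
    have := E_cont z
    fun_prop
  induction w generalizing z with
  | nil =>
    show ((h z : ℝ) : ℂ) = nc d * ∫ θ, φ θ * 1 * E z θ ∂(bx d)
    simp only [mul_one, hh]
  | cons x w ih =>
    obtain ⟨l, b⟩ := x
    cases b
    · show ((dw h w (z - Pi.single l 1) - dw h w z : ℝ) : ℂ) = _
      push_cast
      rw [ih, ih, ← mul_sub, ← integral_sub (hi _ _) (hi _ _)]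
      congr 1
      refine integral_congr_ae (Eventually.of_forall fun θ => ?_)
      simp only [sw]
      rw [E_sub]
      ring
    · show ((dw h w (z + Pi.single l 1) - dw h w z : ℝ) : ℂ) = _
      push_cast
      rw [ih, ih, ← mul_sub, ← integral_sub (hi _ _) (hi _ _)]
      congr 1
      refine integral_congr_ae (Eventually.of_forall fun θ => ?_)
      simp only [sw]
      rw [E_add]
      ring

/-- the product of the one dimensional integrands -/
lemma prod_Fw {d : ℕ} (w : List (Fin d × Bool)) (t : ℝ) (z : Fin d → ℤ) (θ : Fin d → ℝ) :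
    ∏ i, F (ep w i) (em w i) t (z i) (θ i) =
      sw w θ * ((Real.exp (-(S θ * t)) : ℝ) : ℂ) * E z θ := by
  unfold F
  rw [Finset.prod_mul_distrib, Finset.prod_mul_distrib, Finset.prod_mul_distrib, sw_eq]
  have h3 : ∏ i, Complex.exp (-(2 * t * (1 - Complex.cos (θ i)))) =
      ((Real.exp (-(S θ * t)) : ℝ) : ℂ) := by
    rw [← Complex.exp_sum, Complex.ofReal_exp]
    congr 1
    unfold S
    push_cast
    rw [Finset.sum_mul, ← Finset.sum_neg_distrib]
    refine Finset.sum_congr rfl fun i _ => ?_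
    ring
  rw [h3]
  rfl

/-- the product of the kernels as an integral over the box -/
lemma prod_Qw {d : ℕ} (w : List (Fin d × Bool)) (t : ℝ) (z : Fin d → ℤ) :
    ∏ i, Q (ep w i) (em w i) t (z i) =
      nc d * ∫ θ, sw w θ * ((Real.exp (-(S θ * t)) : ℝ) : ℂ) * E z θ ∂(bx d) := by
  have hle : -Real.pi ≤ Real.pi := by linarith [Real.pi_pos]
  unfold Q
  rw [Finset.prod_mul_distrib, Finset.prod_const, Finset.card_univ, Fintype.card_fin]
  unfold nc
  rw [Complex.ofReal_pow]
  congr 1
  simp only [← prod_Fw]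
  unfold bx
  rw [integral_fintype_prod_eq_prod (f := fun (i : Fin d) (x : ℝ) =>
    F (ep w i) (em w i) t (z i) (x : ℂ))]
  refine Finset.prod_congr rfl fun i _ => ?_
  rw [intervalIntegral.integral_of_le hle]

lemma norm_sw {d : ℕ} (w : List (Fin d × Bool)) (θ : Fin d → ℝ) :
    ‖sw w θ‖ ≤ ∏ i, |θ i| ^ (ep w i + em w i) := by
  rw [sw_eq, norm_mul, norm_prod, norm_prod]
  simp only [pow_add]
  rw [Finset.prod_mul_distrib]
  have h3 : ∀ x : ℝ, ‖Complex.exp (Complex.I * x) - 1‖ ≤ |x| := fun x => by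
    simpa using Real.norm_exp_I_mul_ofReal_sub_one_le (x := x)
  have h4 : ∀ x : ℝ, ‖Complex.exp (-(Complex.I * x)) - 1‖ ≤ |x| := fun x => by
    have := h3 (-x)
    rw [abs_neg] at this
    convert this using 4
    push_cast
    ring
  refine mul_le_mul ?_ ?_ (Finset.prod_nonneg fun _ _ => norm_nonneg _)
    (Finset.prod_nonneg fun _ _ => by positivity)
  · refine Finset.prod_le_prod (fun _ _ => norm_nonneg _) fun i _ => ?_
    rw [norm_pow]
    exact pow_le_pow_left₀ (norm_nonneg _) (h3 _) _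
  · refine Finset.prod_le_prod (fun _ _ => norm_nonneg _) fun i _ => ?_
    rw [norm_pow]
    exact pow_le_pow_left₀ (norm_nonneg _) (h4 _) _

/-- the one dimensional moment -/
lemma mom_le (n : ℕ) (t : ℝ) (ht : 0 ≤ t) :
    ∫ x in Ioc (-Real.pi) Real.pi, |x| ^ n * Real.exp (-(4 / Real.pi ^ 2 * t * x ^ 2)) ≤
      Real.exp 4 * GC n * et t ^ (n + 1) := by
  set e := et t with he
  have he0 : 0 < e := et_pos t
  have hM : (0:ℝ) < max 1 t := lt_max_of_lt_left one_pos
  have hes : e ^ 2 = (max 1 t)⁻¹ := et_sq t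
  have hgi : Integrable fun θ : ℝ => Real.exp 4 * e ^ n * gw n (θ / e) :=
    ((gw_integrable n).comp_div he0.ne').const_mul _
  have hpt : ∀ x ∈ Ioc (-Real.pi) Real.pi,
      |x| ^ n * Real.exp (-(4 / Real.pi ^ 2 * t * x ^ 2)) ≤
      Real.exp 4 * e ^ n * gw n (x / e) := by
    intro x hx
    have hθ' : |x| ≤ Real.pi := abs_le.2 ⟨hx.1.le, hx.2⟩
    have h1 : |x| ^ n ≤ e ^ n * (|x / e| + 1) ^ n := by
      rw [← mul_pow]
      apply pow_le_pow_left₀ (abs_nonneg _)
      rw [abs_div, abs_of_pos he0]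
      have : e * (|x| / e + 1) = |x| + e := by field_simp
      rw [this]
      linarith
    have h2 : Real.exp (-(4 / Real.pi ^ 2 * t * x ^ 2)) ≤
        Real.exp 4 * Real.exp (-(4 / Real.pi ^ 2 * (x / e) ^ 2)) := by
      rw [← Real.exp_add]
      apply Real.exp_le_exp.2
      rw [div_pow, hes]
      have hpp : (0:ℝ) < Real.pi ^ 2 := by positivity
      have h3 : x ^ 2 ≤ Real.pi ^ 2 := by
        rw [← sq_abs x]
        exact pow_le_pow_left₀ (abs_nonneg _) hθ' 2
      have h4 : x ^ 2 / Real.pi ^ 2 ≤ 1 := by rwa [div_le_one hpp]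
      have h5 : max 1 t ≤ 1 + t := max_le (by linarith) (by linarith)
      have h6 : (0:ℝ) ≤ x ^ 2 / Real.pi ^ 2 := by positivity
      have h7 : 4 / Real.pi ^ 2 * (x ^ 2 / (max 1 t)⁻¹) = 4 * (x ^ 2 / Real.pi ^ 2) * max 1 t := by
        field_simp
      have h8 : 4 / Real.pi ^ 2 * t * x ^ 2 = 4 * (x ^ 2 / Real.pi ^ 2) * t := by ring
      rw [h7, h8]
      have h9 : 4 * (x ^ 2 / Real.pi ^ 2) * max 1 t ≤ 4 * (x ^ 2 / Real.pi ^ 2) * (1 + t) := by
        gcongr
      nlinarith
    unfold gw
    calc |x| ^ n * Real.exp (-(4 / Real.pi ^ 2 * t * x ^ 2))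
        ≤ (e ^ n * (|x / e| + 1) ^ n) *
          (Real.exp 4 * Real.exp (-(4 / Real.pi ^ 2 * (x / e) ^ 2))) := by gcongr
      _ = _ := by ring
  have hci : IntegrableOn (fun x : ℝ => |x| ^ n * Real.exp (-(4 / Real.pi ^ 2 * t * x ^ 2)))
      (Ioc (-Real.pi) Real.pi) := by
    refine (Continuous.integrableOn_Icc (a := -Real.pi) (b := Real.pi) ?_).mono_set
      Ioc_subset_Icc_self
    fun_prop
  calc ∫ x in Ioc (-Real.pi) Real.pi, |x| ^ n * Real.exp (-(4 / Real.pi ^ 2 * t * x ^ 2))
      ≤ ∫ x in Ioc (-Real.pi) Real.pi, Real.exp 4 * e ^ n * gw n (x / e) :=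
        setIntegral_mono_on hci hgi.integrableOn measurableSet_Ioc hpt
    _ ≤ ∫ x : ℝ, Real.exp 4 * e ^ n * gw n (x / e) := by
        refine setIntegral_le_integral hgi (Eventually.of_forall fun θ => ?_)
        have := gw_nonneg n (θ / e)
        simp only [Pi.zero_apply]
        positivity
    _ = _ := by
        rw [integral_const_mul, Measure.integral_comp_div, abs_of_pos he0, smul_eq_mul]
        have hG : ∫ u : ℝ, gw n u = GC n := rfl
        rw [hG]
        ring

/-- the absolute heat trace with differences -/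
def Rw {d : ℕ} (w : List (Fin d × Bool)) (t : ℝ) : ℝ :=
  ∫ θ, ‖sw w θ‖ * Real.exp (-(S θ * t)) ∂(bx d)

lemma Rw_nonneg {d : ℕ} (w : List (Fin d × Bool)) (t : ℝ) : 0 ≤ Rw w t :=
  integral_nonneg fun _ => mul_nonneg (norm_nonneg _) (Real.exp_pos _).le

/-- the constant -/
def RC {d : ℕ} (w : List (Fin d × Bool)) : ℝ := ∏ i, (Real.exp 4 * GC (ep w i + em w i))

lemma RC_nonneg {d : ℕ} (w : List (Fin d × Bool)) : 0 ≤ RC w := by
  unfold RC
  refine Finset.prod_nonneg fun i _ => ?_
  have := GC_nonneg (ep w i + em w i)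
  positivity

lemma Rw_le {d : ℕ} (w : List (Fin d × Bool)) {t : ℝ} (ht : 0 ≤ t) :
    Rw w t ≤ RC w * et t ^ (d + w.length) := by
  have h1 : ∀ᵐ θ ∂(bx d), ‖sw w θ‖ * Real.exp (-(S θ * t)) ≤
      ∏ i, (|θ i| ^ (ep w i + em w i) * Real.exp (-(4 / Real.pi ^ 2 * t * θ i ^ 2))) := by
    filter_upwards [bx_ae d] with θ hθ
    rw [Finset.prod_mul_distrib]
    refine mul_le_mul (norm_sw w θ) ?_ (Real.exp_pos _).le
      (Finset.prod_nonneg fun _ _ => by positivity)
    rw [← Real.exp_sum]
    apply Real.exp_le_exp.2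
    have h4 : ∑ i, 4 / Real.pi ^ 2 * θ i ^ 2 ≤ S θ := by
      unfold S
      refine Finset.sum_le_sum fun i _ => ?_
      have := Real.cos_le_one_sub_mul_cos_sq (hθ i)
      have h5 : 4 / Real.pi ^ 2 * θ i ^ 2 = 2 * (2 / Real.pi ^ 2 * θ i ^ 2) := by ring
      rw [h5]
      linarith
    rw [Finset.sum_neg_distrib]
    apply neg_le_neg
    calc ∑ i, 4 / Real.pi ^ 2 * t * θ i ^ 2 = (∑ i, 4 / Real.pi ^ 2 * θ i ^ 2) * t := by
          rw [Finset.sum_mul]
          refine Finset.sum_congr rfl fun i _ => ?_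
          ring
      _ ≤ S θ * t := by gcongr
  have hc1 := sw_cont w
  have hc2 := S_cont (d := d)
  calc Rw w t ≤ ∫ θ, ∏ i, (|θ i| ^ (ep w i + em w i) *
        Real.exp (-(4 / Real.pi ^ 2 * t * θ i ^ 2))) ∂(bx d) := by
        unfold Rw
        refine integral_mono_ae (cont_int (by fun_prop)) (cont_int (by fun_prop)) h1
    _ = ∏ i : Fin d, ∫ x in Ioc (-Real.pi) Real.pi, |x| ^ (ep w i + em w i) *
        Real.exp (-(4 / Real.pi ^ 2 * t * x ^ 2)) := by
        unfold bx
        rw [integral_fintype_prod_eq_prod (f := fun (i : Fin d) (x : ℝ) =>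
          |x| ^ (ep w i + em w i) * Real.exp (-(4 / Real.pi ^ 2 * t * x ^ 2)))]
    _ ≤ ∏ i : Fin d, (Real.exp 4 * GC (ep w i + em w i) * et t ^ (ep w i + em w i + 1)) := by
        refine Finset.prod_le_prod (fun i _ => ?_) (fun i _ => mom_le _ t ht)
        exact integral_nonneg fun x => by positivity
    _ = _ := by
        rw [Finset.prod_mul_distrib, Finset.prod_pow_eq_pow_sum, sum_exps]
        rfl

end

end Pool.Agent.T2h85.KC
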