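import Pool.Agent.T2h85.KC1

/-!
# Iterated differences of the lattice Green function: infinite time, remainder
-/

namespace Pool.Agent.T2h85.KC

open MeasureTheory Set Filter Topology
open Pool.Agent.T2h85.KA Pool.Agent.Z72.KB
open Pool.Agent.T2h94 (dw sgw gk)

noncomputable section

lemma sw_le {d : ℕ} (w : List (Fin d × Bool)) (θ : Fin d → ℝ) : ‖sw w θ‖ ≤ 2 ^ w.length := by
  have h1 : ∀ x : ℝ, ‖Complex.exp (Complex.I * x) - 1‖ ≤ 2 := fun x => by
    refine (norm_sub_le _ _).trans ?_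
    rw [mul_comm, Complex.norm_exp_ofReal_mul_I, norm_one]
    norm_num
  have h2 : ∀ x : ℝ, ‖Complex.exp (-(Complex.I * x)) - 1‖ ≤ 2 := fun x => by
    have := h1 (-x)
    convert this using 4
    push_cast
    ring
  induction w with
  | nil => simp [sw]
  | cons x w ih =>
    obtain ⟨l, b⟩ := x
    rw [List.length_cons, pow_succ, mul_comm]
    cases b
    · show ‖(Complex.exp (-(Complex.I * θ l)) - 1) * sw w θ‖ ≤ _
      rw [norm_mul]
      exact mul_le_mul (h2 _) ih (norm_nonneg _) (by norm_num)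
    · show ‖(Complex.exp (Complex.I * θ l) - 1) * sw w θ‖ ≤ _
      rw [norm_mul]
      exact mul_le_mul (h1 _) ih (norm_nonneg _) (by norm_num)

/-- the Green function for infinite time, with differences -/
def gw' {d : ℕ} (w : List (Fin d × Bool)) (z : Fin d → ℤ) : ℂ :=
  nc d * ∫ θ, ((1 / S θ : ℝ) : ℂ) * (sw w θ * E z θ) ∂(bx d)

/-- the heat kernel representation -/
theorem gw'_eq {d : ℕ} (hd : 3 ≤ d) (w : List (Fin d × Bool)) (z : Fin d → ℤ) :
    gw' w z = ∫ t in Ioi (0:ℝ), ∏ i, Q (ep w i) (em w i) t (z i) := by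
  simp only [prod_Qw]
  rw [integral_const_mul]
  unfold gw'
  congr 1
  have hmeas : AEStronglyMeasurable
      (Function.uncurry fun (t : ℝ) (θ : Fin d → ℝ) =>
        sw w θ * ((Real.exp (-(S θ * t)) : ℝ) : ℂ) * E z θ)
      (((volume : Measure ℝ).restrict (Ioi 0)).prod (bx d)) := by
    apply Continuous.aestronglyMeasurable
    have c1 := sw_cont w
    have c2 := S_cont (d := d)
    have c3 := E_cont z
    simp only [Function.uncurry_def]
    fun_prop
  have hint : Integrable
      (Function.uncurry fun (t : ℝ) (θ : Fin d → ℝ) =>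
        sw w θ * ((Real.exp (-(S θ * t)) : ℝ) : ℂ) * E z θ)
      (((volume : Measure ℝ).restrict (Ioi 0)).prod (bx d)) := by
    refine Integrable.mono' ((prod_int hd).const_mul (2 ^ w.length)) hmeas
      (Eventually.of_forall fun p => ?_)
    simp only [Function.uncurry_def]
    rw [norm_mul, norm_mul, E_norm, mul_one, Complex.norm_real,
      Real.norm_of_nonneg (Real.exp_pos _).le]
    exact mul_le_mul_of_nonneg_right (sw_le w _) (Real.exp_pos _).le
  rw [integral_integral_swap hint]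
  refine integral_congr_ae (Eventually.of_forall fun θ => ?_)
  simp only
  rw [integral_mul_const, integral_const_mul, integral_complex_ofReal, time_int' (S_nonneg θ)]
  ring

/-- the tail of the trace -/
lemma tail_eqw {d : ℕ} (hd : 3 ≤ d) (w : List (Fin d × Bool)) {τ : ℝ} (hτ : 0 ≤ τ) :
    ∫ θ, ‖sw w θ‖ * (Real.exp (-(S θ * τ)) / S θ) ∂(bx d) = ∫ t in Ioi τ, Rw w t := by
  have hint : Integrable
      (Function.uncurry fun (t : ℝ) (θ : Fin d → ℝ) => ‖sw w θ‖ * Real.exp (-(S θ * t)))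
      (((volume : Measure ℝ).restrict (Ioi τ)).prod (bx d)) := by
    have h0 : Integrable
      (Function.uncurry fun (t : ℝ) (θ : Fin d → ℝ) => Real.exp (-(S θ * t)))
      (((volume : Measure ℝ).restrict (Ioi τ)).prod (bx d)) := by
      refine (prod_int hd).mono_measure ?_
      exact Measure.prod_mono (Measure.restrict_mono (Ioi_subset_Ioi hτ) le_rfl) le_rfl
    refine Integrable.mono' (h0.const_mul (2 ^ w.length)) ?_ (Eventually.of_forall fun p => ?_)
    · apply Continuous.aestronglyMeasurable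
      have c1 := sw_cont w
      have c2 := S_cont (d := d)
      simp only [Function.uncurry_def]
      fun_prop
    · simp only [Function.uncurry_def]
      rw [norm_mul, norm_norm, Real.norm_of_nonneg (Real.exp_pos _).le]
      exact mul_le_mul_of_nonneg_right (sw_le w _) (Real.exp_pos _).le
  unfold Rw
  rw [integral_integral_swap hint]
  refine integral_congr_ae ?_
  filter_upwards [S_pos_ae hd] with θ hθ
  rw [integral_const_mul, time_int_tail hθ τ]

/-- the remainder -/
theorem gk_sub_gw' {d : ℕ} (hd : 3 ≤ d) (K : ℕ) (w : List (Fin d × Bool)) (z : Fin d → ℤ) :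
    ‖((dw (gk d K) w z : ℝ) : ℂ) - gw' w z‖ ≤ ∫ t in Ioi ((K : ℝ) / (4 * d)), Rw w t := by
  have hd0 : (0:ℝ) < d := by
    have : 0 < d := by omega
    exact_mod_cast this
  have hE := (E_cont z).measurable
  have hsw := (sw_cont w).measurable
  have hph : Measurable fun θ : Fin d → ℝ => ph θ := ph_cont.measurable
  have hphle : ∀ θ : Fin d → ℝ, ph θ ≤ 1 := fun θ => by
    unfold ph
    have := S_nonneg θ
    have : 0 ≤ S θ / (4 * d) := by positivity
    linarith
  have hS1 : ∀ θ : Fin d → ℝ, 0 ≤ 1 / S θ := fun θ => div_nonneg zero_le_one (S_nonneg θ)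
  have hbd : Integrable (fun θ : Fin d → ℝ => 2 ^ w.length * (1 / S θ)) (bx d) :=
    (inv_S_integrable hd).const_mul _
  have i1 : Integrable (fun θ => ((1 / S θ : ℝ) : ℂ) * (sw w θ * E z θ)) (bx d) := by
    refine Integrable.mono' hbd
      ((Complex.measurable_ofReal.comp (measurable_const.div S_cont.measurable)).mul
        (hsw.mul hE)).aestronglyMeasurable (Eventually.of_forall fun θ => ?_)
    rw [norm_mul, norm_mul, E_norm, mul_one, Complex.norm_real, Real.norm_of_nonneg (hS1 θ),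
      mul_comm]
    exact mul_le_mul_of_nonneg_right (sw_le w θ) (hS1 θ)
  have i3 : Integrable (fun θ => ‖sw w θ‖ * (ph θ ^ K * (1 / S θ))) (bx d) := by
    refine Integrable.mono' hbd
      (hsw.norm.mul ((hph.pow_const K).mul
        (measurable_const.div S_cont.measurable))).aestronglyMeasurable
      (Eventually.of_forall fun θ => ?_)
    have h2 : 0 ≤ ph θ ^ K * (1 / S θ) := mul_nonneg (pow_nonneg (ph_nonneg θ) K) (hS1 θ)
    rw [norm_mul, norm_norm, Real.norm_of_nonneg h2]
    exact mul_le_mul (sw_le w θ)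
      (mul_le_of_le_one_left (hS1 θ) (pow_le_one₀ (ph_nonneg θ) (hphle θ))) h2 (by positivity)
  have hn2 : ∀ θ, ‖((ph θ ^ K * (1 / S θ) : ℝ) : ℂ) * (sw w θ * E z θ)‖ =
      ‖sw w θ‖ * (ph θ ^ K * (1 / S θ)) := by
    intro θ
    rw [norm_mul, norm_mul, E_norm, mul_one, Complex.norm_real, Real.norm_of_nonneg, mul_comm]
    exact mul_nonneg (pow_nonneg (ph_nonneg θ) K) (hS1 θ)
  have i2 : Integrable (fun θ => ((ph θ ^ K * (1 / S θ) : ℝ) : ℂ) * (sw w θ * E z θ))
      (bx d) := by
    refine Integrable.mono' i3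
      ((Complex.measurable_ofReal.comp ((hph.pow_const K).mul
        (measurable_const.div S_cont.measurable))).mul
        (hsw.mul hE)).aestronglyMeasurable (Eventually.of_forall fun θ => ?_)
    rw [hn2]
  have e : ∀ᵐ θ ∂(bx d), ((1 / (4 * d) : ℂ) * ∑ k ∈ Finset.range K, ((ph θ : ℝ) : ℂ) ^ k) *
      sw w θ * E z θ = ((1 / S θ : ℝ) : ℂ) * (sw w θ * E z θ) -
        ((ph θ ^ K * (1 / S θ) : ℝ) : ℂ) * (sw w θ * E z θ) := by
    filter_upwards [S_pos_ae hd] with θ hθ
    rw [← sub_mul, mul_assoc]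
    congr 1
    have hd0' : (d : ℂ) ≠ 0 := by exact_mod_cast hd0.ne'
    have hS' : ((S θ : ℝ) : ℂ) ≠ 0 := by exact_mod_cast hθ.ne'
    have h1 := mul_neg_geom_sum ((ph θ : ℝ) : ℂ) K
    have h2 : 1 - ((ph θ : ℝ) : ℂ) = (S θ : ℂ) / (4 * d) := by
      unfold ph
      push_cast
      ring
    rw [h2] at h1
    have h3 : (∑ k ∈ Finset.range K, ((ph θ : ℝ) : ℂ) ^ k) =
        (1 - ((ph θ : ℝ) : ℂ) ^ K) * (4 * d / (S θ : ℂ)) := by
      rw [← h1]
      field_simp
    rw [h3]
    push_cast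
    field_simp
  have hφ : Continuous fun θ : Fin d → ℝ =>
      ((1 / (4 * d) : ℂ) * ∑ k ∈ Finset.range K, ((ph θ : ℝ) : ℂ) ^ k) := by
    have := ph_cont (d := d)
    fun_prop
  rw [dw_fourier hφ (fun z => gk_fourier (by omega) K z) w z, integral_congr_ae e,
    integral_sub i1 i2]
  unfold gw'
  rw [mul_sub, sub_sub_cancel_left, norm_neg, norm_mul]
  have h2 : ‖∫ θ, ((ph θ ^ K * (1 / S θ) : ℝ) : ℂ) * (sw w θ * E z θ) ∂(bx d)‖ ≤
      ∫ θ, ‖sw w θ‖ * (ph θ ^ K * (1 / S θ)) ∂(bx d) := by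
    refine norm_integral_le_of_norm_le i3 (Eventually.of_forall fun θ => ?_)
    rw [hn2]
  have h3 : ∫ θ, ‖sw w θ‖ * (ph θ ^ K * (1 / S θ)) ∂(bx d) ≤
      ∫ θ, ‖sw w θ‖ * (Real.exp (-(S θ * ((K : ℝ) / (4 * d)))) / S θ) ∂(bx d) := by
    refine integral_mono i3 ?_ fun θ => ?_
    · refine Integrable.mono' hbd (Measurable.aestronglyMeasurable ?_)
        (Eventually.of_forall fun θ => ?_)
      · refine hsw.norm.mul (Measurable.div ?_ S_cont.measurable)
        exact (Real.continuous_exp.comp (S_cont.mul continuous_const).neg).measurable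
      · have h4 : 0 ≤ S θ * ((K : ℝ) / (4 * d)) := mul_nonneg (S_nonneg θ) (by positivity)
        rw [norm_mul, norm_norm, Real.norm_of_nonneg (div_nonneg (Real.exp_pos _).le (S_nonneg θ)),
          div_eq_mul_one_div (Real.exp _)]
        refine mul_le_mul (sw_le w θ) (mul_le_of_le_one_left (hS1 θ) ?_)
          (mul_nonneg (Real.exp_pos _).le (hS1 θ)) (by positivity)
        rw [Real.exp_le_one_iff]
        linarith
    · simp only
      refine mul_le_mul_of_nonneg_left ?_ (norm_nonneg _)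
      rw [div_eq_mul_one_div (Real.exp _)]
      refine mul_le_mul_of_nonneg_right ?_ (hS1 θ)
      have h2 : ph θ ≤ Real.exp (-(S θ / (4 * d))) := Real.one_sub_le_exp_neg _
      refine (pow_le_pow_left₀ (ph_nonneg θ) h2 K).trans (le_of_eq ?_)
      rw [← Real.exp_nat_mul]
      congr 1
      ring
  rw [tail_eqw hd w (by positivity)] at h3
  calc ‖nc d‖ * ‖∫ θ, ((ph θ ^ K * (1 / S θ) : ℝ) : ℂ) * (sw w θ * E z θ) ∂(bx d)‖
      ≤ 1 * ∫ θ, ‖sw w θ‖ * (ph θ ^ K * (1 / S θ)) ∂(bx d) := by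
        have := nc_norm_le d
        gcongr
    _ ≤ _ := by
        rw [one_mul]
        exact h3

/-- the bound of the tail -/
lemma tail_lew {d : ℕ} (hd : 3 ≤ d) (w : List (Fin d × Bool)) {τ : ℝ} (hτ : 1 ≤ τ) :
    ∫ t in Ioi τ, Rw w t ≤ RC w * (2 * τ ^ (-(((d - 2 + w.length : ℕ) : ℝ) / 2))) := by
  have hτ0 : 0 < τ := by linarith
  set M : ℕ := d - 2 + w.length with hM
  have hM1 : (1:ℝ) ≤ M := by
    have : 1 ≤ M := by omega
    exact_mod_cast this
  have hMe : d + w.length = M + 2 := by omega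
  have hex : -((M : ℝ) / 2) - 1 < -1 := by linarith
  have hI : IntegrableOn (fun t : ℝ => RC w * t ^ (-((M : ℝ) / 2) - 1)) (Ioi τ) :=
    (integrableOn_Ioi_rpow_of_lt hex hτ0).const_mul _
  have hpt : ∀ t ∈ Ioi τ, Rw w t ≤ RC w * t ^ (-((M : ℝ) / 2) - 1) := by
    intro t ht
    have ht' : τ < t := ht
    have ht0 : 0 < t := by linarith
    refine (Rw_le w ht0.le).trans ?_
    have hRC := RC_nonneg w
    refine mul_le_mul_of_nonneg_left ?_ hRC
    rw [hMe]
    calc et t ^ (M + 2) ≤ (t ^ (-(1 / 2) : ℝ)) ^ (M + 2) :=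
          pow_le_pow_left₀ (et_pos t).le (et_le_rpow ht0) _
      _ = t ^ (-((M : ℝ) / 2) - 1) := by
        rw [← Real.rpow_natCast, ← Real.rpow_mul ht0.le]
        congr 1
        push_cast
        ring
  have h1 : ∫ t in Ioi τ, Rw w t ≤ ∫ t in Ioi τ, RC w * t ^ (-((M : ℝ) / 2) - 1) := by
    by_cases hR : IntegrableOn (Rw w) (Ioi τ)
    · exact setIntegral_mono_on hR hI measurableSet_Ioi hpt
    · rw [integral_undef hR]
      refine setIntegral_nonneg measurableSet_Ioi fun t ht => ?_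
      have ht' : τ < t := ht
      have ht0 : 0 < t := by linarith
      have := RC_nonneg w
      positivity
  refine h1.trans ?_
  rw [integral_const_mul, integral_Ioi_rpow_of_lt hex hτ0]
  refine mul_le_mul_of_nonneg_left ?_ (RC_nonneg w)
  have e1 : -((M : ℝ) / 2) - 1 + 1 = -((M : ℝ) / 2) := by ring
  rw [e1, neg_div_neg_eq, div_le_iff₀ (by positivity)]
  have hp : 0 < τ ^ (-((M : ℝ) / 2)) := by positivity
  nlinarith

end

end Pool.Agent.T2h85.KC
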