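import Pool.Agent.T2h85.KC2

/-!
# Derivatives of the Green function by the heat kernel
-/

namespace Pool.Agent.T2h85.KC

open MeasureTheory Set Filter Topology
open Pool.Agent.T2h85.KA Pool.Agent.Z72.KB
open Pool.Agent.T2h94 (dw sgw gk pd Gr)

noncomputable section

/-- elementary domination -/
lemma dom_et (n : ℕ) (hn : 3 ≤ n) {c : ℝ} (hc : 0 < c) {y T : ℝ} (hy : 0 < y) (hT : 0 < T)
    (hyT : T * y ^ 2 ≤ 1) :
    y ^ n * Real.exp (-(c * y)) ≤
      ((n.factorial : ℝ) / c ^ n + ((n - 3).factorial : ℝ) / c ^ (n - 3)) * et T ^ 3 := by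
  have key : ∀ k : ℕ, y ^ k * Real.exp (-(c * y)) ≤ (k.factorial : ℝ) / c ^ k := by
    intro k
    have h := Real.pow_div_factorial_le_exp (x := c * y) (by positivity) k
    rw [div_le_iff₀ (by positivity), mul_pow] at h
    rw [Real.exp_neg, le_div_iff₀ (by positivity), ← div_eq_mul_inv, div_mul_eq_mul_div,
      div_le_iff₀ (Real.exp_pos _)]
    linarith
  have he := et_pos T
  rcases le_total T 1 with h | h
  · have e1 : et T = 1 := by
      unfold et
      rw [max_eq_left h]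
      simp
    rw [e1, one_pow, mul_one]
    have := key n
    have h2 : 0 ≤ ((n - 3).factorial : ℝ) / c ^ (n - 3) := by positivity
    linarith
  · have e1 : et T = (Real.sqrt T)⁻¹ := by
      unfold et
      rw [max_eq_right h]
    have hs : 0 < Real.sqrt T := Real.sqrt_pos.2 hT
    have h3 : y ≤ et T := by
      rw [e1, ← one_div, le_div_iff₀ hs]
      have h4 : (y * Real.sqrt T) ^ 2 ≤ 1 := by
        rw [mul_pow, Real.sq_sqrt hT.le]
        linarith
      exact (sq_le_one_iff₀ (by positivity)).1 h4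
    have h5 : y ^ n = y ^ (n - 3) * y ^ 3 := by
      rw [← pow_add]
      congr 1
      omega
    have h6 : y ^ 3 ≤ et T ^ 3 := pow_le_pow_left₀ hy.le h3 3
    have h7 : 0 ≤ (n.factorial : ℝ) / c ^ n := by positivity
    calc y ^ n * Real.exp (-(c * y)) = (y ^ (n - 3) * Real.exp (-(c * y))) * y ^ 3 := by
          rw [h5]
          ring
      _ ≤ (((n - 3).factorial : ℝ) / c ^ (n - 3)) * et T ^ 3 :=
          mul_le_mul (key _) h6 (by positivity) (by positivity)
      _ ≤ _ := by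
          have : 0 ≤ (n.factorial : ℝ) / c ^ n * et T ^ 3 := by positivity
          nlinarith

lemma H_norm (p m : ℕ) (T X κ : ℝ) :
    ‖H p m T X κ‖ = ‖(κ : ℂ) ^ (p + m) * W T 0 κ‖ := by
  rw [H_eq, norm_mul, norm_mul, norm_pow, norm_pow, norm_neg, Complex.norm_I, one_pow, one_pow,
    one_mul, one_mul, norm_mul, norm_mul, W_norm, W_norm]

lemma H_cont (p m : ℕ) (T X : ℝ) : Continuous (H p m T X) := by
  unfold H
  fun_prop

lemma H_integrable (p m : ℕ) (T X : ℝ) (hT : 0 < T) : Integrable (H p m T X) := by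
  refine Integrable.mono' (pow_mul_W_integrable (p + m) T 0 hT).norm
    (H_cont p m T X).aestronglyMeasurable (Eventually.of_forall fun κ => ?_)
  rw [H_norm]

lemma G_neg (p m : ℕ) (T X : ℝ) : G p m T X = (-1) ^ m * G (p + m) 0 T X := by
  have e : ∀ κ : ℝ, H p m T X κ = (-1) ^ m * H (p + m) 0 T X κ := by
    intro κ
    simp only [H]
    rw [pow_zero, mul_one, neg_pow (Complex.I * (κ : ℂ)) m, pow_add]
    ring
  unfold G
  simp only [e]
  rw [integral_const_mul]
  ring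

lemma G_hasDerivAt (n : ℕ) (T : ℝ) (hT : 0 < T) (x : ℝ) :
    HasDerivAt (G n 0 T) (G (n + 1) 0 T x) x := by
  show HasDerivAt (fun X => ((2 * Real.pi)⁻¹ : ℝ) * ∫ κ : ℝ, H n 0 T X κ)
    (((2 * Real.pi)⁻¹ : ℝ) * ∫ κ : ℝ, H (n + 1) 0 T x κ) x
  refine HasDerivAt.const_mul _ ?_
  refine (hasDerivAt_integral_of_dominated_loc_of_deriv_le
    (F := fun (x : ℝ) (κ : ℝ) => H n 0 T x κ) (F' := fun (x : ℝ) (κ : ℝ) => H (n + 1) 0 T x κ)
    (bound := fun κ : ℝ => ‖(κ : ℂ) ^ (n + 1) * W T 0 κ‖) (s := univ) univ_mem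
    ?_ (H_integrable n 0 T x hT) ?_ ?_ ?_ ?_).2
  · exact Eventually.of_forall fun y => (H_cont n 0 T y).aestronglyMeasurable
  · exact (H_cont (n + 1) 0 T x).aestronglyMeasurable
  · refine Eventually.of_forall fun κ y _ => ?_
    simpa using (H_norm (n + 1) 0 T y κ).le
  · exact (pow_mul_W_integrable (n + 1) T 0 hT).norm
  · refine Eventually.of_forall fun κ y _ => ?_
    unfold H
    have h1 : HasDerivAt (fun y : ℝ => (y : ℂ)) 1 y := Complex.ofRealCLM.hasDerivAt
    have h2 : HasDerivAt (fun y : ℝ => Complex.I * ((y : ℂ) * κ)) (Complex.I * (1 * κ)) y :=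
      (h1.mul_const (κ : ℂ)).const_mul Complex.I
    refine (h2.cexp.const_mul _).congr_deriv ?_
    rw [pow_succ]
    ring

lemma G_bound (p m : ℕ) {T : ℝ} (hT : 0 < T) (X : ℝ) :
    ‖G p m T X‖ ≤ QC (p + m) * (Real.sqrt T)⁻¹ ^ (p + m + 1) *
      Real.exp (-(|X| * (Real.sqrt T)⁻¹)) := by
  set a : ℕ → ℝ := fun i => 1 / ((i : ℝ) + 1) with ha
  have hapos : ∀ i, 0 < a i := fun i => by
    simp only [ha]
    positivity
  have ha0 : Tendsto a atTop (𝓝 0) := tendsto_one_div_add_atTop_nhds_zero_nat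
  set z : ℕ → ℤ := fun i => ⌊X / a i⌋ with hz
  have hzl : Tendsto (fun i => a i * (z i : ℝ)) atTop (𝓝 X) := by
    have h1 : Tendsto (fun i => X - a i) atTop (𝓝 X) := by
      simpa using (tendsto_const_nhds (x := X)).sub ha0
    refine tendsto_of_tendsto_of_tendsto_of_le_of_le h1 tendsto_const_nhds ?_ ?_
    · intro i
      have hai := hapos i
      have h2 := Int.lt_floor_add_one (X / a i)
      have h3 : X / a i < (z i : ℝ) + 1 := h2
      rw [div_lt_iff₀ hai] at h3
      show X - a i ≤ a i * (z i : ℝ)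
      nlinarith
    · intro i
      have hai := hapos i
      have h2 := Int.floor_le (X / a i)
      have h3 : (z i : ℝ) ≤ X / a i := h2
      rw [le_div_iff₀ hai] at h3
      show a i * (z i : ℝ) ≤ X
      nlinarith
  have hlim := (Q_tendsto p m T X hT hapos ha0 hzl).norm
  have hs : 0 < Real.sqrt T := Real.sqrt_pos.2 hT
  have hlim2 : Tendsto (fun i => QC (p + m) * (Real.sqrt T)⁻¹ ^ (p + m + 1) *
      Real.exp (-(|a i * (z i : ℝ)| * (Real.sqrt T)⁻¹))) atTop
      (𝓝 (QC (p + m) * (Real.sqrt T)⁻¹ ^ (p + m + 1) *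
      Real.exp (-(|X| * (Real.sqrt T)⁻¹)))) := by
    refine Tendsto.const_mul _ ?_
    exact (Real.continuous_exp.tendsto _).comp ((hzl.abs.mul_const _).neg)
  refine le_of_tendsto_of_tendsto hlim hlim2 ?_
  have h4 : ∀ᶠ i in atTop, a i ^ 2 < T := by
    have : Tendsto (fun i => a i ^ 2) atTop (𝓝 0) := by
      simpa using ha0.pow 2
    exact this.eventually (gt_mem_nhds hT)
  filter_upwards [h4] with i hi
  have hai := hapos i
  have he : et (T / a i ^ 2) = a i * (Real.sqrt T)⁻¹ := by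
    unfold et
    have h5 : 1 ≤ T / a i ^ 2 := by
      rw [le_div_iff₀ (by positivity)]
      linarith
    rw [max_eq_right h5, Real.sqrt_div hT.le, Real.sqrt_sq hai.le]
    field_simp
  have h6 := Q_bound p m (T / a i ^ 2) (by positivity) (z i)
  rw [he] at h6
  rw [norm_mul, Complex.norm_real, Real.norm_of_nonneg (by positivity)]
  calc (a i)⁻¹ ^ (p + m + 1) * ‖Q p m (T / a i ^ 2) (z i)‖
      ≤ (a i)⁻¹ ^ (p + m + 1) * (QC (p + m) * (a i * (Real.sqrt T)⁻¹) ^ (p + m + 1) *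
        Real.exp (-(|(z i : ℝ)| * (a i * (Real.sqrt T)⁻¹)))) := by gcongr
    _ = _ := by
      rw [abs_mul, abs_of_pos hai, mul_pow, inv_pow]
      have : (a i) ^ (p + m + 1) ≠ 0 := by positivity
      field_simp

/-- the continuum kernel with derivatives -/
def HK {d : ℕ} (n : Fin d → ℕ) (T : ℝ) (X : Fin d → ℝ) : ℂ := ∏ i, G (n i) 0 T (X i)

/-- the constant -/
def HC {d : ℕ} (n : Fin d → ℕ) (c : ℝ) : ℝ :=
  (∏ i, QC (n i)) * (((∑ i, (n i + 1)).factorial : ℝ) / c ^ (∑ i, (n i + 1)) +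
    ((∑ i, (n i + 1) - 3).factorial : ℝ) / c ^ (∑ i, (n i + 1) - 3))

lemma HK_bound {d : ℕ} (hd : 3 ≤ d) (n : Fin d → ℕ) {T : ℝ} (hT : 0 < T) {X : Fin d → ℝ}
    {c : ℝ} (hc : 0 < c) (i0 : Fin d) (hX : c ≤ |X i0|) :
    ‖HK n T X‖ ≤ HC n c * et T ^ 3 := by
  have hs : 0 < Real.sqrt T := Real.sqrt_pos.2 hT
  set y := (Real.sqrt T)⁻¹ with hy
  have hy0 : 0 < y := by positivity
  have hyT : T * y ^ 2 ≤ 1 := by
    rw [hy, inv_pow, Real.sq_sqrt hT.le, mul_inv_cancel₀ hT.ne']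
  have hN : 3 ≤ ∑ i, (n i + 1) := by
    rw [Finset.sum_add_distrib]
    simp
    omega
  have h1 : ‖HK n T X‖ ≤ ∏ i, (QC (n i) * (y ^ (n i + 1) * Real.exp (-(|X i| * y)))) := by
    unfold HK
    rw [norm_prod]
    refine Finset.prod_le_prod (fun i _ => norm_nonneg _) fun i _ => ?_
    have := G_bound (n i) 0 hT (X i)
    simp only [add_zero] at this
    refine this.trans (le_of_eq ?_)
    ring
  refine h1.trans ?_
  rw [Finset.prod_mul_distrib, Finset.prod_mul_distrib, Finset.prod_pow_eq_pow_sum,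
    ← Real.exp_sum]
  unfold HC
  rw [mul_assoc]
  refine mul_le_mul_of_nonneg_left ?_ (Finset.prod_nonneg fun i _ => QC_nonneg _)
  refine le_trans ?_ (dom_et _ hN hc hy0 hT hyT)
  refine mul_le_mul_of_nonneg_left ?_ (by positivity)
  apply Real.exp_le_exp.2
  rw [Finset.sum_neg_distrib]
  apply neg_le_neg
  have h3 : |X i0| * y ≤ ∑ i, |X i| * y :=
    Finset.single_le_sum (f := fun i => |X i| * y) (fun i _ => by positivity)
      (Finset.mem_univ i0)
  refine le_trans ?_ h3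
  gcongr

lemma HC_nonneg {d : ℕ} (n : Fin d → ℕ) {c : ℝ} (hc : 0 < c) : 0 ≤ HC n c := by
  unfold HC
  refine mul_nonneg (Finset.prod_nonneg fun i _ => QC_nonneg _) (by positivity)

/-- the derivative of the continuum kernel -/
def HK' {d : ℕ} (n : Fin d → ℕ) (T : ℝ) (X : Fin d → ℝ) : (Fin d → ℝ) →L[ℝ] ℂ :=
  ∑ l, (ContinuousLinearMap.proj (R := ℝ) (φ := fun _ : Fin d => ℝ) l).smulRight
    (HK (n + Pi.single l 1) T X)

lemma HK_hasFDerivAt {d : ℕ} (n : Fin d → ℕ) {T : ℝ} (hT : 0 < T) (X : Fin d → ℝ) :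
    HasFDerivAt (HK n T) (HK' n T X) X := by
  have h1 : ∀ i ∈ (Finset.univ : Finset (Fin d)), HasFDerivAt (fun Y : Fin d → ℝ => G (n i) 0 T (Y i))
      ((ContinuousLinearMap.proj (R := ℝ) (φ := fun _ : Fin d => ℝ) i).smulRight
        (G (n i + 1) 0 T (X i))) X := by
    intro i _
    have h2 : HasFDerivAt (fun Y : Fin d → ℝ => Y i)
        (ContinuousLinearMap.proj (R := ℝ) (φ := fun _ : Fin d => ℝ) i) X :=
      (ContinuousLinearMap.proj (R := ℝ) (φ := fun _ : Fin d => ℝ) i).hasFDerivAt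
    have h4 := (G_hasDerivAt (n i) T hT (X i)).hasFDerivAt.comp X h2
    refine h4.congr_fderiv ?_
    ext v
    simp
  have h3 := HasFDerivAt.finsetProd h1
  refine h3.congr_fderiv ?_
  unfold HK'
  refine Finset.sum_congr rfl fun i _ => ?_
  ext v
  simp only [_root_.smul_apply, ContinuousLinearMap.smulRight_apply,
    ContinuousLinearMap.proj_apply]
  rw [smul_comm]
  congr 1
  unfold HK
  rw [smul_eq_mul, mul_comm, ← Finset.mul_prod_erase Finset.univ _ (Finset.mem_univ i)]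
  simp only [Pi.add_apply, Pi.single_eq_same]
  congr 1
  refine Finset.prod_congr rfl fun j hj => ?_
  rw [Pi.single_eq_of_ne (Finset.ne_of_mem_erase hj), add_zero]

end

end Pool.Agent.T2h85.KC
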